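import Mathlib
import Pool.Agent.TH278.DX.Defs

/-!
# Induced representations on the `ℓ²` sum (job 4453)
-/

set_option autoImplicit false

noncomputable section

namespace Pool.Agent.TH360.J4453

open Pool.Agent.TH278.DX
open scoped ENNReal

variable {I H : Type} [NormedAddCommGroup H] [InnerProductSpace ℂ H]

/-- The `ℓ²` sum. -/
abbrev L2 (I H : Type) [NormedAddCommGroup H] := lp (fun _ : I => H) 2

lemma wop_sum {σ : I → I} (hσ : Function.Injective σ) {T : I → (H →L[ℂ] H)} {c : ℝ}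
    (hT : ∀ q, ‖T q‖ ≤ c) (hc : 0 ≤ c) (f : L2 I H) (s : Finset I) :
    ∑ q ∈ s, ‖T q (f (σ q))‖ ^ (2 : ℝ≥0∞).toReal ≤ (c * ‖f‖) ^ (2 : ℝ≥0∞).toReal := by
  classical
  have hp : 0 < (2 : ℝ≥0∞).toReal := by norm_num
  calc ∑ q ∈ s, ‖T q (f (σ q))‖ ^ (2 : ℝ≥0∞).toReal
      ≤ ∑ q ∈ s, (c * ‖f (σ q)‖) ^ (2 : ℝ≥0∞).toReal := by
        refine Finset.sum_le_sum fun q _ => ?_
        refine Real.rpow_le_rpow (norm_nonneg _) ?_ hp.le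
        exact ((T q).le_opNorm _).trans (mul_le_mul_of_nonneg_right (hT q) (norm_nonneg _))
    _ = c ^ (2 : ℝ≥0∞).toReal * ∑ q ∈ s, ‖f (σ q)‖ ^ (2 : ℝ≥0∞).toReal := by
        rw [Finset.mul_sum]
        refine Finset.sum_congr rfl fun q _ => ?_
        rw [Real.mul_rpow hc (norm_nonneg _)]
    _ = c ^ (2 : ℝ≥0∞).toReal * ∑ q ∈ s.image σ, ‖f q‖ ^ (2 : ℝ≥0∞).toReal := by
        rw [Finset.sum_image fun a _ b _ h => hσ h]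
    _ ≤ c ^ (2 : ℝ≥0∞).toReal * ‖f‖ ^ (2 : ℝ≥0∞).toReal := by
        refine mul_le_mul_of_nonneg_left ?_ (Real.rpow_nonneg hc _)
        exact lp.sum_rpow_le_norm_rpow hp f _
    _ = (c * ‖f‖) ^ (2 : ℝ≥0∞).toReal := by
        rw [Real.mul_rpow hc (norm_nonneg _)]

/-- The weighted composition operator, as a linear map. -/
def wlin (σ : I → I) (hσ : Function.Injective σ) (T : I → (H →L[ℂ] H)) (c : ℝ)
    (hT : ∀ q, ‖T q‖ ≤ c) (hc : 0 ≤ c) : L2 I H →ₗ[ℂ] L2 I H where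
  toFun f := ⟨fun q => T q (f (σ q)), memℓp_gen' (wop_sum hσ hT hc f)⟩
  map_add' f g := by
    apply lp.ext
    funext q
    show T q ((f + g : L2 I H) (σ q)) = T q (f (σ q)) + T q (g (σ q))
    rw [lp.coeFn_add, Pi.add_apply, map_add]
  map_smul' a f := by
    apply lp.ext
    funext q
    show T q ((a • f : L2 I H) (σ q)) = a • T q (f (σ q))
    rw [lp.coeFn_smul, Pi.smul_apply, map_smul]

/-- The weighted composition operator. -/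
def wop (σ : I → I) (hσ : Function.Injective σ) (T : I → (H →L[ℂ] H)) (c : ℝ)
    (hT : ∀ q, ‖T q‖ ≤ c) (hc : 0 ≤ c) : L2 I H →L[ℂ] L2 I H :=
  (wlin σ hσ T c hT hc).mkContinuous c fun f =>
    lp.norm_le_of_forall_sum_le (by norm_num) (by positivity) (wop_sum hσ hT hc f)

lemma wop_apply (σ : I → I) (hσ : Function.Injective σ) (T : I → (H →L[ℂ] H)) (c : ℝ)
    (hT : ∀ q, ‖T q‖ ≤ c) (hc : 0 ≤ c) (f : L2 I H) (q : I) :
    wop σ hσ T c hT hc f q = T q (f (σ q)) := rfl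

lemma wop_norm (σ : I → I) (hσ : Function.Injective σ) (T : I → (H →L[ℂ] H)) (c : ℝ)
    (hT : ∀ q, ‖T q‖ ≤ c) (hc : 0 ≤ c) : ‖wop σ hσ T c hT hc‖ ≤ c :=
  LinearMap.mkContinuous_norm_le _ hc _

open scoped Classical in
/-- A section of the coset space with value `1` at the trivial coset. -/
def sec {Γ : Type} [Group Γ] (Λ : Subgroup Γ) (q : Γ ⧸ Λ) : Γ :=
  if q = ((1 : Γ) : Γ ⧸ Λ) then 1 else q.out

lemma sec_one {Γ : Type} [Group Γ] (Λ : Subgroup Γ) : sec Λ ((1 : Γ) : Γ ⧸ Λ) = 1 := by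
  simp [sec]

lemma sec_mk {Γ : Type} [Group Γ] (Λ : Subgroup Γ) (q : Γ ⧸ Λ) : ((sec Λ q : Γ) : Γ ⧸ Λ) = q := by
  unfold sec
  split_ifs with h
  · exact h.symm
  · exact Quotient.out_eq' q

/-- The cocycle. -/
def bt {Γ : Type} [Group Γ] (Λ : Subgroup Γ) (g : Γ) (q : Γ ⧸ Λ) : Λ :=
  ⟨(sec Λ q)⁻¹ * (g * sec Λ (g⁻¹ • q)), by
    rw [← QuotientGroup.eq, sec_mk]
    have h : ((g * sec Λ (g⁻¹ • q) : Γ) : Γ ⧸ Λ) = g • ((sec Λ (g⁻¹ • q) : Γ) : Γ ⧸ Λ) := rfl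
    rw [h, sec_mk, smul_inv_smul]⟩

lemma bt_one {Γ : Type} [Group Γ] (Λ : Subgroup Γ) (q : Γ ⧸ Λ) : bt Λ 1 q = 1 := by
  apply Subtype.ext
  simp [bt]

lemma bt_mul {Γ : Type} [Group Γ] (Λ : Subgroup Γ) (g h : Γ) (q : Γ ⧸ Λ) :
    bt Λ (g * h) q = bt Λ g q * bt Λ h (g⁻¹ • q) := by
  apply Subtype.ext
  simp only [bt, Subgroup.coe_mul, mul_inv_rev, mul_smul]
  group

lemma inj_smul {Γ : Type} [Group Γ] (Λ : Subgroup Γ) (g : Γ) :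
    Function.Injective (fun q : Γ ⧸ Λ => g⁻¹ • q) := MulAction.injective _

/-- The induced representation, as a monoid homomorphism. -/
def rho {Γ H : Type} [Group Γ] (Λ : Subgroup Γ) [NormedAddCommGroup H]
    [InnerProductSpace ℂ H] (π : Λ →* (H →L[ℂ] H)ˣ) (c : ℝ) (hc : Bdd π c) (hc0 : 0 ≤ c) :
    Γ →* (L2 (Γ ⧸ Λ) H →L[ℂ] L2 (Γ ⧸ Λ) H) where
  toFun := fun g => wop (fun q : Γ ⧸ Λ => g⁻¹ • q) (inj_smul Λ g)
    (fun q => ((π (bt Λ g q) : (H →L[ℂ] H)ˣ) : H →L[ℂ] H)) c (fun q => hc _) hc0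
  map_one' := by
    ext f q
    rw [wop_apply, bt_one, inv_one, one_smul, map_one]
    rfl
  map_mul' := by
    intro g h
    ext f q
    rw [wop_apply, bt_mul, map_mul, Units.val_mul, mul_inv_rev, mul_smul]
    rfl

lemma rho_apply {Γ H : Type} [Group Γ] (Λ : Subgroup Γ) [NormedAddCommGroup H]
    [InnerProductSpace ℂ H] (π : Λ →* (H →L[ℂ] H)ˣ) (c : ℝ) (hc : Bdd π c) (hc0 : 0 ≤ c)
    (g : Γ) (f : L2 (Γ ⧸ Λ) H) (q : Γ ⧸ Λ) :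
    rho Λ π c hc hc0 g f q = ((π (bt Λ g q) : (H →L[ℂ] H)ˣ) : H →L[ℂ] H) (f (g⁻¹ • q)) := rfl

lemma rho_norm {Γ H : Type} [Group Γ] (Λ : Subgroup Γ) [NormedAddCommGroup H]
    [InnerProductSpace ℂ H] (π : Λ →* (H →L[ℂ] H)ˣ) (c : ℝ) (hc : Bdd π c) (hc0 : 0 ≤ c)
    (g : Γ) : ‖rho Λ π c hc hc0 g‖ ≤ c := wop_norm _ _ _ _ _ _

open scoped Classical in
/-- The embedding at the trivial coset. -/
def emb {Γ : Type} (H : Type) [Group Γ] (Λ : Subgroup Γ) [NormedAddCommGroup H]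
    [InnerProductSpace ℂ H] : H →ₗᵢ[ℂ] L2 (Γ ⧸ Λ) H where
  toFun := lp.single (E := fun _ : Γ ⧸ Λ => H) 2 ((1 : Γ) : Γ ⧸ Λ)
  map_add' := fun x y => lp.single_add (E := fun _ : Γ ⧸ Λ => H) 2 ((1 : Γ) : Γ ⧸ Λ) x y
  map_smul' := fun a x => lp.single_smul (E := fun _ : Γ ⧸ Λ => H) 2 ((1 : Γ) : Γ ⧸ Λ) a x
  norm_map' := by
    intro x
    have h := lp.norm_single (E := fun _ : Γ ⧸ Λ => H) (p := 2) (by norm_num : (0 : ℝ≥0∞) < 2)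
      ((1 : Γ) : Γ ⧸ Λ) x
    exact h

open scoped Classical in
lemma emb_self {Γ H : Type} [Group Γ] (Λ : Subgroup Γ) [NormedAddCommGroup H]
    [InnerProductSpace ℂ H] (x : H) : emb H Λ x ((1 : Γ) : Γ ⧸ Λ) = x :=
  lp.single_apply_self (E := fun _ : Γ ⧸ Λ => H) 2 _ x

open scoped Classical in
lemma emb_ne {Γ H : Type} [Group Γ] (Λ : Subgroup Γ) [NormedAddCommGroup H]
    [InnerProductSpace ℂ H] (x : H) {q : Γ ⧸ Λ} (hq : q ≠ ((1 : Γ) : Γ ⧸ Λ)) :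
    emb H Λ x q = 0 :=
  lp.single_apply_ne (E := fun _ : Γ ⧸ Λ => H) 2 _ x hq

lemma inter {Γ H : Type} [Group Γ] (Λ : Subgroup Γ) [NormedAddCommGroup H]
    [InnerProductSpace ℂ H] (π : Λ →* (H →L[ℂ] H)ˣ) (c : ℝ) (hc : Bdd π c) (hc0 : 0 ≤ c)
    (l : Λ) (x : H) :
    rho Λ π c hc hc0 (l : Γ) (emb H Λ x) = emb H Λ (((π l : (H →L[ℂ] H)ˣ) : H →L[ℂ] H) x) := by
  apply lp.ext
  funext q
  rw [rho_apply]
  have h1 : ((l : Γ)⁻¹ • (((1 : Γ) : Γ ⧸ Λ)) : Γ ⧸ Λ) = ((1 : Γ) : Γ ⧸ Λ) := by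
    have h : ((l : Γ)⁻¹ • (((1 : Γ) : Γ ⧸ Λ)) : Γ ⧸ Λ) = (((l : Γ)⁻¹ * 1 : Γ) : Γ ⧸ Λ) := rfl
    rw [h, mul_one, QuotientGroup.eq]
    simp
  by_cases hq : q = ((1 : Γ) : Γ ⧸ Λ)
  · subst hq
    have h2 : bt Λ (l : Γ) ((1 : Γ) : Γ ⧸ Λ) = l := by
      apply Subtype.ext
      show (sec Λ ((1 : Γ) : Γ ⧸ Λ))⁻¹ * ((l : Γ) * sec Λ ((l : Γ)⁻¹ • ((1 : Γ) : Γ ⧸ Λ))) = l
      rw [h1, sec_one]; simp
    rw [h1, h2, emb_self, emb_self]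
  · have hq' : ((l : Γ)⁻¹ • q : Γ ⧸ Λ) ≠ ((1 : Γ) : Γ ⧸ Λ) := by
      intro h
      rw [← h1] at h
      exact hq (MulAction.injective _ h)
    rw [emb_ne Λ x hq', emb_ne Λ _ hq, map_zero]

/-- **Induced representation.** -/
theorem induce {Γ H : Type} [Group Γ] (Λ : Subgroup Γ) [NormedAddCommGroup H]
    [InnerProductSpace ℂ H] [CompleteSpace H] (π : Λ →* (H →L[ℂ] H)ˣ) (c : ℝ) (hc : Bdd π c) :
    ∃ (H' : Type) (_ : NormedAddCommGroup H') (_ : InnerProductSpace ℂ H') (_ : CompleteSpace H')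
      (π' : Γ →* (H' →L[ℂ] H')ˣ) (J : H →ₗᵢ[ℂ] H'), Bdd π' c ∧
      ∀ (l : Λ) (x : H), ((π' (l : Γ) : (H' →L[ℂ] H')ˣ) : H' →L[ℂ] H') (J x) =
        J (((π l : (H →L[ℂ] H)ˣ) : H →L[ℂ] H) x) := by
  have hc0 : 0 ≤ c := (norm_nonneg _).trans (hc 1)
  exact ⟨L2 (Γ ⧸ Λ) H, inferInstance, inferInstance, inferInstance,
    (rho Λ π c hc hc0).toHomUnits, emb H Λ, fun g => rho_norm Λ π c hc hc0 g,
    fun l x => inter Λ π c hc hc0 l x⟩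

end Pool.Agent.TH360.J4453
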