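import Pool.Agent.TH360.BqCross

/-!
Every unit distance preserving map from a Euclidean space of dimension `d` to one of dimension
at most `d + c` is an isometry if `3 * (c + 3) ≤ d`.
-/

set_option autoImplicit false

namespace Pool.Agent.TH360.BqG

open Module Pool.Agent.Helper855.Bq

variable {E V : Type*} [NormedAddCommGroup E] [InnerProductSpace ℝ E]
  [NormedAddCommGroup V] [InnerProductSpace ℝ V]

/-- A finite set of short pairs with all cross distances one. -/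
structure Cross (B : Finset (E × E)) : Prop where
  short : ∀ P ∈ B, ‖P.1 - P.2‖ ≤ 1 / 2
  unit : ∀ P ∈ B, ∀ Q ∈ B, P ≠ Q → ‖P.1 - Q.1‖ = 1 ∧ ‖P.1 - Q.2‖ = 1 ∧ ‖P.2 - Q.2‖ = 1

/-- The inequality between circumradii. -/
def Good (f : E → V) (B : Finset (E × E)) : Prop :=
  (∀ P ∈ B, 0 < 1 / 2 - ‖f P.1 - f P.2‖ ^ 2 / 4) ∧
  ∑ P ∈ B, (1 / 2 - ‖f P.1 - f P.2‖ ^ 2 / 4)⁻¹ ≤ ∑ P ∈ B, (1 / 2 - ‖P.1 - P.2‖ ^ 2 / 4)⁻¹

open Classical in
/-- The number of pairs not satisfying the dichotomy. -/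
noncomputable def bad (f : E → V) (B : Finset (E × E)) : ℕ :=
  (B.filter (fun P => ¬ Dich f P.1 P.2)).card

omit [InnerProductSpace ℝ E] in
lemma Cross.crossU {B : Finset (E × E)} (h : Cross B) :
    CrossU (fun P : B => (P : E × E).1) (fun P : B => (P : E × E).2) := by
  intro P Q hPQ
  exact h.unit P P.2 Q Q.2 (fun h => hPQ (Subtype.ext h))

omit [InnerProductSpace ℝ E] in
lemma Cross.mono {B C : Finset (E × E)} (h : Cross B) (hC : C ⊆ B) : Cross C :=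
  ⟨fun P hP => h.short P (hC hP), fun P hP Q hQ => h.unit P (hC hP) Q (hC hQ)⟩

/-- At most `c` pairs do not satisfy the dichotomy. -/
theorem bad_le [FiniteDimensional ℝ E] [FiniteDimensional ℝ V] (c : ℕ)
    (hE : 3 * (c + 3) ≤ finrank ℝ E) (hV : finrank ℝ V ≤ finrank ℝ E + c)
    {f : E → V} (hf : ∀ x y, ‖x - y‖ = 1 → ‖f x - f y‖ = 1) {B : Finset (E × E)}
    (h : Cross B) : bad f B ≤ c := by
  classical
  by_contra hcon
  unfold bad at hcon
  obtain ⟨C, hC, hCc⟩ := Finset.exists_subset_card_eq (n := c + 1) (by omega :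
    c + 1 ≤ (B.filter (fun P => ¬ Dich f P.1 P.2)).card)
  have hCB : C ⊆ B := fun P hP => (Finset.mem_filter.mp (hC hP)).1
  have hnd : ∀ P : C, ¬ Dich f (P : E × E).1 (P : E × E).2 := fun P =>
    (Finset.mem_filter.mp (hC P.2)).2
  obtain ⟨P, hP⟩ := cross_gen c hE hV hf (κ := C) (by rw [Fintype.card_coe, hCc])
    (h.mono hCB).crossU (by
      intro P hP
      apply hnd P
      have hP' : (P : E × E).1 = (P : E × E).2 := hP
      left; rw [hP']; simp)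
    (fun P => (h.mono hCB).short P P.2)
  exact hnd P hP

/-- An isometric arc controls the centre. -/
lemma center_of_arc {f : E → V} (hf : ∀ x y, ‖x - y‖ = 1 → ‖f x - f y‖ = 1)
    {z u w : E} {R θ0 : ℝ} (h0 : 0 < θ0) (hπ : θ0 ≤ Real.pi)
    (hI : ∀ θ ∈ Set.Icc 0 θ0, ∀ θ' ∈ Set.Icc 0 θ0,
      ‖f (pt z u w R θ) - f (pt z u w R θ')‖ = ‖pt z u w R θ - pt z u w R θ'‖) :
    ∃ F : V, ∀ p : E, (∀ θ, ‖p - pt z u w R θ‖ = 1) → ‖f p - F‖ = ‖p - z‖ := by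
  have m0 : (0 : ℝ) ∈ Set.Icc 0 θ0 := ⟨le_refl _, h0.le⟩
  have m1 : θ0 / 2 ∈ Set.Icc 0 θ0 := ⟨by linarith, by linarith⟩
  have m2 : θ0 ∈ Set.Icc 0 θ0 := ⟨h0.le, le_refl _⟩
  have hc : Real.cos (θ0 / 2) < 1 := by
    have := Real.cos_lt_cos_of_nonneg_of_le_pi (le_refl (0 : ℝ)) (by linarith : θ0 / 2 ≤ Real.pi)
      (by linarith : (0 : ℝ) < θ0 / 2)
    rwa [Real.cos_zero] at this
  have c2 : Real.cos θ0 = 2 * Real.cos (θ0 / 2) ^ 2 - 1 := by
    rw [← Real.cos_two_mul]; congr 1; ring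
  have s2 : Real.sin θ0 = 2 * Real.sin (θ0 / 2) * Real.cos (θ0 / 2) := by
    rw [← Real.sin_two_mul]; congr 1; ring
  obtain ⟨c, hcc⟩ : ∃ c, c = Real.cos (θ0 / 2) := ⟨_, rfl⟩
  rw [← hcc] at hc c2 s2
  have hne : 2 - 2 * c ≠ 0 := by linarith
  obtain ⟨l, hl⟩ : ∃ l : ℝ, l * (2 - 2 * c) = 1 := ⟨(2 - 2 * c)⁻¹, inv_mul_cancel₀ hne⟩
  have hsum : l + (-2 * c * l) + l = 1 := by linear_combination hl
  have hzz : l • pt z u w R 0 + (-2 * c * l) • pt z u w R (θ0 / 2) + l • pt z u w R θ0 = z := by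
    unfold pt
    rw [Real.cos_zero, Real.sin_zero, c2, s2, ← hcc]
    have : z = (l * (2 - 2 * c)) • z := by rw [hl, one_smul]
    nth_rewrite 4 [this]
    module
  refine ⟨l • f (pt z u w R 0) + (-2 * c * l) • f (pt z u w R (θ0 / 2)) +
    l • f (pt z u w R θ0), fun p hp => ?_⟩
  have a1 := affine_dist (f := f) (p := p) hsum (hp 0) (hp (θ0 / 2)) (hp θ0)
    (hf _ _ (hp 0)) (hf _ _ (hp (θ0 / 2))) (hf _ _ (hp θ0))
    (hI _ m0 _ m1) (hI _ m0 _ m2) (hI _ m1 _ m2)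
  rwa [hzz] at a1

omit [InnerProductSpace ℝ E] in
/-- A point equidistant from the images gives the inequality. -/
lemma good_of_center {f : E → V} (hf : ∀ x y, ‖x - y‖ = 1 → ‖f x - f y‖ = 1)
    {B : Finset (E × E)} (h : Cross B) {k : ℝ} (hk : 0 < k)
    (hkT : k * ∑ P ∈ B, (1 / 2 - ‖P.1 - P.2‖ ^ 2 / 4)⁻¹ = 1) {F : V}
    (h1 : ∀ P ∈ B, ‖f P.1 - F‖ ^ 2 = 1 / 2 - k) (h2 : ∀ P ∈ B, ‖f P.2 - F‖ ^ 2 = 1 / 2 - k) :
    Good f B := by
  classical
  have hcr : CrossU (fun P : B => f (P : E × E).1) (fun P : B => f (P : E × E).2) := by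
    intro P Q hPQ
    obtain ⟨a1, a2, a3⟩ := h.crossU P Q hPQ
    exact ⟨hf _ _ a1, hf _ _ a2, hf _ _ a3⟩
  obtain ⟨t, ht⟩ : ∃ t : B → ℝ, ∀ P : B, t P =
    1 / 2 - ‖f (P : E × E).1 - f (P : E × E).2‖ ^ 2 / 4 := ⟨_, fun P => rfl⟩
  obtain ⟨m, hm⟩ : ∃ m : B → V, ∀ P : B, m P =
    (1 / 2 : ℝ) • (f (P : E × E).1 + f (P : E × E).2) := ⟨_, fun P => rfl⟩
  have hmF : ∀ P : B, ‖m P - F‖ ^ 2 = t P - k := by
    intro P
    have e : m P - F = (1 / 2 : ℝ) • ((f (P : E × E).1 - F) + (f (P : E × E).2 - F)) := by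
      rw [hm]; module
    have n1 := norm_add_sq_real (f (P : E × E).1 - F) (f (P : E × E).2 - F)
    have n2 := norm_sub_sq_real (f (P : E × E).1 - F) (f (P : E × E).2 - F)
    rw [sub_sub_sub_cancel_right, h1 P P.2, h2 P P.2] at n2
    rw [h1 P P.2, h2 P P.2] at n1
    rw [e, norm_smul, mul_pow, n1, ht, n2]
    norm_num
    ring
  have hmm : ∀ P Q : B, P ≠ Q → ‖m P - m Q‖ ^ 2 = t P + t Q := by
    intro P Q hPQ
    rw [hm, hm, ht, ht]
    exact (hcr.mid hPQ).2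
  have hin : ∀ P Q : B, inner ℝ (m P - F) (m Q - F) = (if P = Q then t P else 0) - k := by
    intro P Q
    by_cases hPQ : P = Q
    · subst hPQ; rw [real_inner_self_eq_norm_sq, hmF, if_pos rfl]
    · have n2 := norm_sub_sq_real (m P - F) (m Q - F)
      rw [sub_sub_sub_cancel_right, hmm P Q hPQ, hmF, hmF] at n2
      rw [if_neg hPQ]; linarith
  have htp : ∀ P : B, 0 < t P := by
    intro P
    have := hmF P
    have h3 := sq_nonneg ‖m P - F‖
    linarith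
  refine ⟨fun P hP => by rw [← ht ⟨P, hP⟩]; exact htp _, ?_⟩
  have hg := gram (v := fun P : B => m P - F) hin (fun P => (t P)⁻¹)
  have hS : ∑ P : B, t P * (t P)⁻¹ ^ 2 = ∑ P : B, (t P)⁻¹ := by
    refine Finset.sum_congr rfl fun P _ => ?_
    have := (htp P).ne'
    field_simp
  rw [hS] at hg
  have hnn := sq_nonneg ‖∑ P : B, (t P)⁻¹ • (m P - F)‖
  rw [hg] at hnn
  have e1 : ∑ P ∈ B, (1 / 2 - ‖f P.1 - f P.2‖ ^ 2 / 4)⁻¹ = ∑ P : B, (t P)⁻¹ := by
    rw [← Finset.sum_coe_sort B]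
    exact Finset.sum_congr rfl fun P _ => by rw [ht]
  rw [e1]
  obtain ⟨S, hSd⟩ : ∃ S, S = ∑ P : B, (t P)⁻¹ := ⟨_, rfl⟩
  obtain ⟨T, hTd⟩ : ∃ T, T = ∑ P ∈ B, (1 / 2 - ‖P.1 - P.2‖ ^ 2 / 4)⁻¹ := ⟨_, rfl⟩
  rw [← hSd] at hnn ⊢
  rw [← hTd] at hkT ⊢
  have hS0 : 0 ≤ S := by rw [hSd]; exact Finset.sum_nonneg fun P _ => (inv_pos.mpr (htp P)).le
  have hT0 : 0 < T := by
    by_contra hT
    push Not at hT
    nlinarith
  by_contra hlt
  push Not at hlt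
  have h3 : S * (k * S - 1) ≤ 0 := by nlinarith
  have h4 : 0 < k * S - 1 := by nlinarith
  nlinarith

lemma chord_le {z u w : E} {R θ0 : ℝ} (hu : ‖u‖ = 1) (hw : ‖w‖ = 1) (huw : inner ℝ u w = (0 : ℝ))
    (hR : R ^ 2 ≤ 1) (h0 : 0 < θ0) {θ θ' : ℝ} (h : θ ∈ Set.Icc 0 θ0) (h' : θ' ∈ Set.Icc 0 θ0) :
    ‖pt z u w R θ - pt z u w R θ'‖ ≤ θ0 := by
  have h1 := Real.one_sub_sq_div_two_le_cos (x := θ - θ')
  rw [Real.cos_sub] at h1
  have h2 : (θ - θ') ^ 2 ≤ θ0 ^ 2 := by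
    rw [sq_le_sq, abs_of_pos h0, abs_le]
    constructor <;> linarith [h.1, h.2, h'.1, h'.2]
  have h3 : ‖pt z u w R θ - pt z u w R θ'‖ ^ 2 ≤ θ0 ^ 2 := by
    rw [pt_sub_sq hu hw huw]
    nlinarith [sq_nonneg R, sq_nonneg (θ - θ')]
  exact (sq_le_sq₀ (norm_nonneg _) h0.le).mp h3

open Classical in
omit [InnerProductSpace ℝ E] [InnerProductSpace ℝ V] in
lemma bad_insert {f : E → V} {B : Finset (E × E)} {x y : E} (hxy : (x, y) ∉ B)
    (hnd : ¬ Dich f x y) : bad f (insert (x, y) B) = bad f B + 1 := by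
  unfold bad
  rw [Finset.filter_insert, if_pos hnd, Finset.card_insert_of_notMem]
  intro h
  exact hxy (Finset.mem_filter.mp h).1

/-- The inequality between circumradii holds for all families with few good pairs. -/
theorem good_all [FiniteDimensional ℝ E] [FiniteDimensional ℝ V] (c : ℕ)
    (hE : 3 * (c + 3) ≤ finrank ℝ E) (hV : finrank ℝ V ≤ finrank ℝ E + c)
    {f : E → V} (hf : ∀ x y, ‖x - y‖ = 1 → ‖f x - f y‖ = 1) :
    ∀ n : ℕ, ∀ B : Finset (E × E), Cross B → c - bad f B = n → B.card ≤ bad f B + 1 →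
      B.Nonempty → Good f B := by
  classical
  intro n
  induction n using Nat.strong_induction_on with
  | _ n ih =>
  intro B h hn hcard hBne
  have hble := bad_le c hE hV hf h
  have hne : Nonempty B := hBne.to_subtype
  have hsh2 : ∀ P ∈ B, ‖P.1 - P.2‖ ^ 2 ≤ 1 / 4 := by
    intro P hP
    have := pow_le_pow_left₀ (norm_nonneg _) (h.short P hP) 2
    norm_num at this ⊢; exact this
  obtain ⟨z, k, hk, hkT, hp, hq⟩ := exists_circum h.crossU
    (fun P => by linarith [hsh2 P P.2])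
  have hkT' : k * ∑ P ∈ B, (1 / 2 - ‖P.1 - P.2‖ ^ 2 / 4)⁻¹ = 1 := by
    rw [← Finset.sum_coe_sort B]; exact hkT
  obtain ⟨u, hu, huo⟩ := exists_unit_orth' (E := E)
    (Sum.elim (fun P : B => (P : E × E).1 - z) (fun P : B => (P : E × E).2 - z))
    (by rw [Fintype.card_sum, Fintype.card_coe]; omega)
  obtain ⟨w, hw, hwo⟩ := exists_unit_orth' (E := E)
    (Sum.elim (Sum.elim (fun P : B => (P : E × E).1 - z) (fun P : B => (P : E × E).2 - z))
      (fun _ : Unit => u))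
    (by rw [Fintype.card_sum, Fintype.card_sum, Fintype.card_coe, Fintype.card_unit]; omega)
  have huw : inner ℝ u w = (0 : ℝ) := hwo (Sum.inr ())
  obtain ⟨P0, hP0⟩ := hBne
  have hk2 : k ≤ 1 / 2 := by
    have h3 := sq_nonneg ‖P0.1 - z‖
    have h4 : ‖P0.1 - z‖ ^ 2 = 1 / 2 - k := hp ⟨P0, hP0⟩
    linarith
  obtain ⟨R, hR⟩ : ∃ R : ℝ, R = Real.sqrt (1 / 2 + k) := ⟨_, rfl⟩
  have hR2 : R ^ 2 = 1 / 2 + k := by rw [hR]; exact Real.sq_sqrt (by linarith)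
  have c1 : ∀ P ∈ B, ∀ θ, ‖P.1 - pt z u w R θ‖ = 1 := by
    intro P hP θ
    refine pt_sub_center hu hw huw (huo (Sum.inl ⟨P, hP⟩)) (hwo (Sum.inl (Sum.inl ⟨P, hP⟩))) ?_ θ
    have h4 : ‖P.1 - z‖ ^ 2 = 1 / 2 - k := hp ⟨P, hP⟩
    rw [h4, hR2]; ring
  have c2 : ∀ P ∈ B, ∀ θ, ‖P.2 - pt z u w R θ‖ = 1 := by
    intro P hP θ
    refine pt_sub_center hu hw huw (huo (Sum.inr ⟨P, hP⟩)) (hwo (Sum.inl (Sum.inr ⟨P, hP⟩))) ?_ θ
    have h4 : ‖P.2 - z‖ ^ 2 = 1 / 2 - k := hq ⟨P, hP⟩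
    rw [h4, hR2]; ring
  have hR1 : R ^ 2 + ‖P0.1 - z‖ ^ 2 = 1 := by
    have h4 : ‖P0.1 - z‖ ^ 2 = 1 / 2 - k := hp ⟨P0, hP0⟩
    rw [h4, hR2]; ring
  by_cases hD : ∃ θ0 : ℝ, 0 < θ0 ∧ θ0 ≤ 1 / 2 ∧ ∀ θ ∈ Set.Icc (0 : ℝ) θ0,
      ∀ θ' ∈ Set.Icc (0 : ℝ) θ0, Dich f (pt z u w R θ) (pt z u w R θ')
  · obtain ⟨θ0, h0, h01, hD⟩ := hD
    have hπ : θ0 ≤ Real.pi := by linarith [Real.pi_gt_three]
    have hch : R ^ 2 * (2 - 2 * Real.cos θ0) ≤ 1 / 4 := by
      have h3 := Real.one_sub_sq_div_two_le_cos (x := θ0)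
      have h4 := Real.cos_le_one θ0
      have h5 : θ0 ^ 2 ≤ 1 / 4 := by nlinarith
      rw [hR2]
      nlinarith
    have hI := arc hf (p := P0.1) (by rw [hR2]; linarith) hR1 hu hw huw
      (huo (Sum.inl ⟨P0, hP0⟩)) (hwo (Sum.inl (Sum.inl ⟨P0, hP0⟩))) h0 hπ hch hD
    obtain ⟨F, hF⟩ := center_of_arc hf h0 hπ hI
    refine good_of_center hf h hk hkT' (F := F) ?_ ?_
    · intro P hP
      have h4 : ‖P.1 - z‖ ^ 2 = 1 / 2 - k := hp ⟨P, hP⟩
      rw [hF _ (c1 P hP), h4]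
    · intro P hP
      have h4 : ‖P.2 - z‖ ^ 2 = 1 / 2 - k := hq ⟨P, hP⟩
      rw [hF _ (c2 P hP), h4]
  · have key : ∀ θ0 : ℝ, 0 < θ0 → θ0 ≤ 1 / 2 → ∃ x y : E, ‖x - y‖ ≤ θ0 ∧ (x, y) ∉ B ∧
        Good f (insert (x, y) B) := by
      intro θ0 h0 h01
      by_contra hcon
      push Not at hcon
      apply hD
      refine ⟨θ0, h0, h01, fun θ hθ θ' hθ' => ?_⟩
      by_contra hnd
      have hx : ‖pt z u w R θ - pt z u w R θ'‖ ≤ θ0 :=
        chord_le hu hw huw (by rw [hR2]; linarith) h0 hθ hθ'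
      have hnot : (pt z u w R θ, pt z u w R θ') ∉ B := by
        intro hmem
        have := c1 _ hmem θ
        simp at this
      refine hcon _ _ hx hnot ?_
      have hB' : Cross (insert (pt z u w R θ, pt z u w R θ') B) := by
        refine ⟨?_, ?_⟩
        · intro P hP
          rcases Finset.mem_insert.mp hP with rfl | hP
          · exact hx.trans h01
          · exact h.short P hP
        · intro P hP Q hQ hPQ
          rcases Finset.mem_insert.mp hP with rfl | hP <;>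
            rcases Finset.mem_insert.mp hQ with rfl | hQ
          · exact absurd rfl hPQ
          · refine ⟨?_, ?_, ?_⟩
            · rw [norm_sub_rev]; exact c1 Q hQ θ
            · rw [norm_sub_rev]; exact c2 Q hQ θ
            · rw [norm_sub_rev]; exact c2 Q hQ θ'
          · exact ⟨c1 P hP θ, c1 P hP θ', c2 P hP θ'⟩
          · exact h.unit P hP Q hQ hPQ
      have hb := bad_insert (f := f) hnot hnd
      have hble' := bad_le c hE hV hf hB'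
      refine ih (c - bad f (insert (pt z u w R θ, pt z u w R θ') B)) (by omega) _ hB' rfl ?_
        (Finset.insert_nonempty _ _)
      rw [Finset.card_insert_of_notMem hnot]
      omega
    obtain ⟨x0, y0, -, hn0, hg0⟩ := key (1 / 2) (by norm_num) le_rfl
    refine ⟨fun P hP => hg0.1 P (Finset.mem_insert_of_mem hP), ?_⟩
    refine le_of_forall_pos_le_add fun ε hε => ?_
    obtain ⟨x, y, hxy, hn1, hg⟩ := key (min (1 / 2) ε) (lt_min (by norm_num) hε) (min_le_left _ _)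
    obtain ⟨g1, g2⟩ := hg
    rw [Finset.sum_insert hn1, Finset.sum_insert hn1] at g2
    have g3 := g1 (x, y) (Finset.mem_insert_self _ _)
    simp only at g2 g3
    have hd1 : ‖x - y‖ ≤ 1 / 2 := hxy.trans (min_le_left _ _)
    have hd2 : ‖x - y‖ ≤ ε := hxy.trans (min_le_right _ _)
    have hd0 := norm_nonneg (x - y)
    have hd3 : ‖x - y‖ ^ 2 ≤ ε / 2 := by nlinarith
    have hd4 : ‖x - y‖ ^ 2 ≤ 1 / 4 := by nlinarith
    have i1 : 2 ≤ (1 / 2 - ‖f x - f y‖ ^ 2 / 4)⁻¹ := by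
      rw [le_inv_comm₀ (by norm_num) g3]
      have := sq_nonneg ‖f x - f y‖
      norm_num; linarith
    have i2 : (1 / 2 - ‖x - y‖ ^ 2 / 4)⁻¹ ≤ 2 + 2 * ‖x - y‖ ^ 2 := by
      rw [inv_le_iff_one_le_mul₀ (by linarith)]
      nlinarith [sq_nonneg ‖x - y‖]
    linarith

/-- Short distances do not grow. -/
theorem main_le' [FiniteDimensional ℝ E] [FiniteDimensional ℝ V] (c : ℕ)
    (hE : 3 * (c + 3) ≤ finrank ℝ E) (hV : finrank ℝ V ≤ finrank ℝ E + c)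
    {f : E → V} (hf : ∀ x y, ‖x - y‖ = 1 → ‖f x - f y‖ = 1) {p q : E} (h1 : ‖p - q‖ ≤ 1 / 2) :
    ‖f p - f q‖ ≤ ‖p - q‖ := by
  have hB : Cross ({(p, q)} : Finset (E × E)) := by
    refine ⟨?_, ?_⟩
    · intro P hP
      rw [Finset.mem_singleton] at hP
      rw [hP]; exact h1
    · intro P hP Q hQ hPQ
      rw [Finset.mem_singleton] at hP hQ
      exact absurd (hP.trans hQ.symm) hPQ
  obtain ⟨g1, g2⟩ := good_all c hE hV hf _ _ hB rfl (by rw [Finset.card_singleton]; omega)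
    (Finset.singleton_nonempty _)
  rw [Finset.sum_singleton, Finset.sum_singleton] at g2
  have g3 := g1 (p, q) (Finset.mem_singleton_self _)
  simp only at g2 g3
  have hd0 := norm_nonneg (p - q)
  have hd4 : ‖p - q‖ ^ 2 ≤ 1 / 4 := by nlinarith
  rw [inv_le_inv₀ g3 (by linarith)] at g2
  exact (sq_le_sq₀ (norm_nonneg _) hd0).mp (by linarith)

/-- **Main theorem.** Every unit distance preserving map from a Euclidean space of dimension `d`
to a Euclidean space of dimension at most `d + c`, where `3 * (c + 3) ≤ d`, is an isometry. -/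
theorem isometry_of_unit' [FiniteDimensional ℝ E] [FiniteDimensional ℝ V] (c : ℕ)
    (hE : 3 * (c + 3) ≤ finrank ℝ E) (hV : finrank ℝ V ≤ finrank ℝ E + c)
    {f : E → V} (hf : ∀ x y, ‖x - y‖ = 1 → ‖f x - f y‖ = 1) :
    ∀ p q : E, ‖f p - f q‖ = ‖p - q‖ :=
  eq_all (eq_le_one hf (fun _ _ h => main_le' c hE hV hf h))

end Pool.Agent.TH360.BqG
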