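import Pool.Agent.TH158.FM.Stm

/-!
# `∑_{n ≤ x} d(n)² / n ≤ (log x + 3)⁴ / 24` (job 4554)

`d(n)² ≤ ∑_{ab = n} d(a) d(b)` by submultiplicativity, and the partial sums of the Dirichlet powers
of `1/n` are bounded by the midpoint rule.
-/

set_option autoImplicit false

noncomputable section

namespace Pool.Agent.TH360.J4554

open Pool.Agent.TH158.FM
open Finset ArithmeticFunction

/-- midpoint bounds for the logarithm -/
lemma log_mid (a : ℝ) (ha : 1 ≤ a) :
    0 ≤ Real.log ((a + 1 / 2) / a) ∧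
    Real.log ((a + 1 / 2) / a) ≤ Real.log (a / (a - 1 / 2)) ∧
    1 / a ≤ Real.log ((a + 1 / 2) / a) + Real.log (a / (a - 1 / 2)) ∧
    Real.log ((a + 1 / 2) / a) ≤ 1 / 2 := by
  have h0 : 0 < a := by linarith
  have h1 : 0 < a - 1 / 2 := by linarith
  have h2 : 0 < a + 1 / 2 := by linarith
  refine ⟨?_, ?_, ?_, ?_⟩
  · apply Real.log_nonneg
    rw [le_div_iff₀ h0]; linarith
  · apply Real.log_le_log (by positivity)
    rw [div_le_div_iff₀ h0 h1]
    nlinarith
  · rw [← Real.log_mul (by positivity) (by positivity)]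
    have h3 : (a + 1 / 2) / a * (a / (a - 1 / 2)) = (1 + 1 / (2 * a)) / (1 - 1 / (2 * a)) := by
      have h4 : (1 - 1 / (2 * a)) ≠ 0 := by
        have : 1 / (2 * a) ≤ 1 / 2 := by
          rw [div_le_div_iff₀ (by positivity) (by norm_num)]; linarith
        linarith
      field_simp
    rw [h3]
    have h5 : 1 / (2 * a) < 1 := by
      rw [div_lt_one (by positivity)]; linarith
    have h6 := Real.sum_range_le_log_div (x := 1 / (2 * a)) (by positivity) h5 1
    simp only [Finset.sum_range_one] at h6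
    have h7 : 1 / a = 2 * (1 / (2 * a)) := by field_simp
    rw [h7]
    norm_num at h6 ⊢
    linarith
  · refine (Real.log_le_sub_one_of_pos (by positivity)).trans ?_
    rw [add_div, div_self h0.ne', add_sub_cancel_left, div_le_div_iff₀ h0 (by norm_num)]
    linarith

/-- the sum over `a ≤ N` -/
lemma core (k : ℕ) (K : ℝ) (hK : 1 ≤ K)
    (hm : ∀ L p q : ℝ, 0 ≤ q → q ≤ p → q ≤ L →
      ((k : ℝ) + 1) * (p + q) * L ^ k ≤ (L + p) ^ (k + 1) - (L - q) ^ (k + 1))
    (x : ℝ) (N : ℕ) (hN : 1 ≤ N) (hx : (N : ℝ) ≤ x) :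
    ∑ n ∈ Ioc 0 N, (n : ℝ)⁻¹ * (Real.log (x / n) + K) ^ k ≤
      (Real.log x + K) ^ k + ((Real.log x + K - Real.log (3 / 2)) ^ (k + 1) -
        (Real.log (x / (N + 1 / 2)) + K) ^ (k + 1)) / ((k : ℝ) + 1) := by
  induction N, hN using Nat.le_induction with
  | base =>
    have hx0 : 0 < x := by
      have : (1 : ℝ) ≤ x := by exact_mod_cast hx
      linarith
    have h1 : Real.log (x / ((1 : ℕ) + 1 / 2)) + K = Real.log x + K - Real.log (3 / 2) := by
      rw [Real.log_div hx0.ne' (by norm_num)]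
      norm_num
      ring
    rw [h1]
    simp
  | succ N hN ih =>
    have hx' : (N : ℝ) + 1 ≤ x := by exact_mod_cast hx
    have hN0 : (1 : ℝ) ≤ N := by exact_mod_cast hN
    have hx0 : 0 < x := by linarith
    have ih' := ih (by linarith)
    rw [Finset.sum_Ioc_succ_top (by omega)]
    set a : ℝ := (N : ℝ) + 1 with ha
    have ha1 : 1 ≤ a := by linarith
    have ha0 : 0 < a := by linarith
    obtain ⟨g1, g2, g3, g4⟩ := log_mid a ha1
    set L : ℝ := Real.log (x / a) + K with hL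
    have hL1 : 1 ≤ L := by
      have : 0 ≤ Real.log (x / a) := Real.log_nonneg (by rw [le_div_iff₀ ha0]; linarith)
      linarith
    have e1 : Real.log (x / ((N : ℝ) + 1 / 2)) + K = L + Real.log (a / (a - 1 / 2)) := by
      rw [hL, Real.log_div hx0.ne' (by positivity), Real.log_div hx0.ne' ha0.ne',
        Real.log_div ha0.ne' (by linarith), show a - 1 / 2 = (N : ℝ) + 1 / 2 by rw [ha]; ring]
      ring
    have e2 : Real.log (x / (((N + 1 : ℕ) : ℝ) + 1 / 2)) + K = L - Real.log ((a + 1 / 2) / a) := by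
      rw [hL, Real.log_div hx0.ne' (by positivity), Real.log_div hx0.ne' ha0.ne',
        Real.log_div (by positivity) ha0.ne']
      push_cast
      rw [ha]
      ring
    have key := hm L (Real.log (a / (a - 1 / 2))) (Real.log ((a + 1 / 2) / a)) g1 g2
      (by linarith)
    have hk : (0 : ℝ) < (k : ℝ) + 1 := by positivity
    have hLk : 0 ≤ L ^ k := by positivity
    rw [e1] at ih'
    rw [e2]
    have hterm : (((N + 1 : ℕ) : ℝ))⁻¹ * (Real.log (x / ((N + 1 : ℕ) : ℝ)) + K) ^ k =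
        1 / a * L ^ k := by
      rw [hL, ha]; push_cast; rw [one_div]
    rw [hterm]
    have h1 : 1 / a * L ^ k ≤ ((L + Real.log (a / (a - 1 / 2))) ^ (k + 1) -
        (L - Real.log ((a + 1 / 2) / a)) ^ (k + 1)) / ((k : ℝ) + 1) := by
      rw [le_div_iff₀ hk]
      refine le_trans ?_ key
      have := mul_le_mul_of_nonneg_right g3 hLk
      nlinarith
    have h2 : ((Real.log x + K - Real.log (3 / 2)) ^ (k + 1) -
        (L - Real.log ((a + 1 / 2) / a)) ^ (k + 1)) / ((k : ℝ) + 1) =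
        ((Real.log x + K - Real.log (3 / 2)) ^ (k + 1) -
          (L + Real.log (a / (a - 1 / 2))) ^ (k + 1)) / ((k : ℝ) + 1) +
        ((L + Real.log (a / (a - 1 / 2))) ^ (k + 1) -
        (L - Real.log ((a + 1 / 2) / a)) ^ (k + 1)) / ((k : ℝ) + 1) := by ring
    rw [h2]
    linarith

lemma log_three_half : 2 / 5 ≤ Real.log (3 / 2) := by
  have h6 := Real.sum_range_le_log_div (x := 1 / 5) (by norm_num) (by norm_num) 1
  simp only [Finset.sum_range_one] at h6
  norm_num at h6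
  linarith

/-- the function `1/n` -/
def f1 : ArithmeticFunction ℝ := ⟨fun n => (n : ℝ)⁻¹, by simp⟩

lemma f1_apply (n : ℕ) : f1 n = (n : ℝ)⁻¹ := rfl

/-- one Dirichlet factor `1/n` -/
lemma step (k : ℕ) (K C : ℝ) (hK : 1 ≤ K) (hC : 0 < C) (g : ArithmeticFunction ℝ)
    (hm : ∀ L p q : ℝ, 0 ≤ q → q ≤ p → q ≤ L →
      ((k : ℝ) + 1) * (p + q) * L ^ k ≤ (L + p) ^ (k + 1) - (L - q) ^ (k + 1))
    (hf : ∀ y : ℝ, 1 ≤ y → ((k : ℝ) + 1) * y ^ k + (y - 2 / 5) ^ (k + 1) ≤ (y + 2 / 3) ^ (k + 1))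
    (hg : ∀ x : ℝ, 1 ≤ x → ∑ n ∈ Ioc 0 ⌊x⌋₊, g n ≤ (Real.log x + K) ^ k / C)
    (x : ℝ) (hx : 1 ≤ x) :
    ∑ n ∈ Ioc 0 ⌊x⌋₊, (f1 * g) n ≤ (Real.log x + (K + 2 / 3)) ^ (k + 1) / (((k : ℝ) + 1) * C) := by
  have hN : 1 ≤ ⌊x⌋₊ := (Nat.one_le_floor_iff x).mpr hx
  have hNx : ((⌊x⌋₊ : ℕ) : ℝ) ≤ x := Nat.floor_le (by linarith)
  have hk : (0 : ℝ) < (k : ℝ) + 1 := by positivity
  rw [sum_Ioc_mul_eq_sum_sum]
  have h1 : ∑ n ∈ Ioc 0 ⌊x⌋₊, f1 n * ∑ m ∈ Ioc 0 (⌊x⌋₊ / n), g m ≤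
      (∑ n ∈ Ioc 0 ⌊x⌋₊, (n : ℝ)⁻¹ * (Real.log (x / n) + K) ^ k) / C := by
    rw [Finset.sum_div]
    refine Finset.sum_le_sum fun n hn => ?_
    rw [Finset.mem_Ioc] at hn
    have hn0 : (0 : ℝ) < n := by exact_mod_cast hn.1
    have hnx : (n : ℝ) ≤ x := le_trans (by exact_mod_cast hn.2) hNx
    rw [f1_apply, ← Nat.floor_div_natCast, mul_div_assoc]
    exact mul_le_mul_of_nonneg_left (hg (x / n) (by rw [le_div_iff₀ hn0]; linarith))
      (by positivity)
  refine h1.trans ?_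
  have h2 := core k K hK hm x ⌊x⌋₊ hN hNx
  have hlx : 0 ≤ Real.log x := Real.log_nonneg hx
  have hlast : 0 ≤ Real.log (x / ((⌊x⌋₊ : ℝ) + 1 / 2)) + K := by
    have h3 : Real.log (2 / 3) ≤ Real.log (x / ((⌊x⌋₊ : ℝ) + 1 / 2)) := by
      apply Real.log_le_log (by norm_num)
      rw [div_le_div_iff₀ (by norm_num) (by positivity)]
      have : (1 : ℝ) ≤ ⌊x⌋₊ := by exact_mod_cast hN
      linarith
    have h4 : -1 ≤ Real.log (2 / 3) := by
      have := Real.one_sub_inv_le_log_of_pos (show (0 : ℝ) < 2 / 3 by norm_num)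
      norm_num at this
      linarith
    linarith
  set y : ℝ := Real.log x + K with hy
  have hy1 : 1 ≤ y := by linarith
  have h5 : (y - Real.log (3 / 2)) ^ (k + 1) ≤ (y - 2 / 5) ^ (k + 1) := by
    apply pow_le_pow_left₀ _ (by linarith [log_three_half])
    have := Real.log_le_sub_one_of_pos (show (0 : ℝ) < 3 / 2 by norm_num)
    linarith
  have h6 := hf y hy1
  have h7 : 0 ≤ (Real.log (x / ((⌊x⌋₊ : ℝ) + 1 / 2)) + K) ^ (k + 1) := by positivity
  rw [← div_div]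
  apply div_le_div_of_nonneg_right _ hC.le
  refine h2.trans ?_
  rw [show Real.log x + (K + 2 / 3) = y + 2 / 3 by rw [hy]; ring, le_div_iff₀ hk, add_mul,
    div_mul_cancel₀ _ hk.ne']
  nlinarith

lemma base (x : ℝ) (hx : 1 ≤ x) : ∑ n ∈ Ioc 0 ⌊x⌋₊, f1 n ≤ (Real.log x + 1) ^ 1 / 1 := by
  have h := harmonic_floor_le_one_add_log x hx
  rw [pow_one, div_one, add_comm]
  refine le_trans (le_of_eq ?_) h
  rw [harmonic_eq_sum_Icc]
  push_cast
  rfl

lemma sum_anti (n : ℕ) (c : ℝ) : ∑ _x ∈ n.divisorsAntidiagonal, c = dd n * c := by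
  have e : ∑ _x ∈ n.divisorsAntidiagonal, c = ∑ _x ∈ n.divisors, c :=
    Nat.sum_divisorsAntidiagonal (fun _ _ => c)
  rw [e, Finset.sum_const, nsmul_eq_mul, dd]

lemma f2_apply (n : ℕ) : (f1 * f1) n = dd n / n := by
  rw [mul_apply]
  have h : ∀ x ∈ n.divisorsAntidiagonal, f1 x.1 * f1 x.2 = (n : ℝ)⁻¹ := by
    intro x hx
    rw [Nat.mem_divisorsAntidiagonal] at hx
    rw [f1_apply, f1_apply, ← mul_inv, ← Nat.cast_mul, hx.1]
  rw [Finset.sum_congr rfl h, sum_anti, div_eq_mul_inv]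

lemma card_mul_le' (a b : ℕ) : dd (a * b) ≤ dd a * dd b := by
  unfold dd
  rw [Nat.divisors_mul]
  exact_mod_cast Finset.card_mul_le

lemma f4_ge (n : ℕ) : dd n ^ 2 / n ≤ ((f1 * f1) * (f1 * f1)) n := by
  rw [mul_apply]
  have h : ∀ x ∈ n.divisorsAntidiagonal, dd n / n ≤ (f1 * f1) x.1 * (f1 * f1) x.2 := by
    intro x hx
    rw [Nat.mem_divisorsAntidiagonal] at hx
    rw [f2_apply, f2_apply, div_mul_div_comm, ← Nat.cast_mul, hx.1]
    apply div_le_div_of_nonneg_right _ (Nat.cast_nonneg _)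
    rw [← hx.1]
    exact card_mul_le' _ _
  refine le_trans (le_of_eq ?_) (Finset.sum_le_sum h)
  rw [sum_anti]
  ring

theorem div_all : S_DIV := by
  intro x hx
  have s2 := step 1 1 1 le_rfl one_pos f1
    (by intro L p q hq hp hL; push_cast; nlinarith [mul_self_nonneg (p - q), mul_nonneg hq hq])
    (by intro y hy; push_cast; nlinarith) base
  have s3 := step 2 (1 + 2 / 3) 2 (by norm_num) (by norm_num) (f1 * f1)
    (by
      intro L p q hq hp hL
      push_cast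
      have h1 : 0 ≤ L := le_trans hq hL
      have h2 : 0 ≤ p := le_trans hq hp
      have h3 : 0 ≤ L * (p ^ 2 - q ^ 2) := mul_nonneg h1 (by nlinarith)
      have h4 : 0 ≤ p ^ 3 + q ^ 3 := by positivity
      nlinarith)
    (by intro y hy; push_cast; nlinarith)
    (by
      intro x hx
      have := s2 x hx
      push_cast at this ⊢
      norm_num at this ⊢
      exact this)
  have s4 := step 3 (7 / 3) 6 (by norm_num) (by norm_num) (f1 * (f1 * f1))
    (by
      intro L p q hq hp hL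
      push_cast
      have h1 : 0 ≤ L := le_trans hq hL
      have h2 : 0 ≤ p := le_trans hq hp
      have h3 : 0 ≤ L ^ 2 * (p ^ 2 - q ^ 2) := mul_nonneg (by positivity) (by nlinarith)
      have h4 : 0 ≤ L * (p ^ 3 + q ^ 3) := by positivity
      have h5 : 0 ≤ p ^ 4 - q ^ 4 := by
        have : q ^ 4 ≤ p ^ 4 := pow_le_pow_left₀ hq hp 4
        linarith
      nlinarith)
    (by
      intro y hy
      push_cast
      have h1 : 0 ≤ y ^ 3 := by positivity
      have h2 : 0 ≤ y ^ 2 := by positivity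
      nlinarith)
    (by
      intro x hx
      have := s3 x hx
      push_cast at this ⊢
      norm_num at this ⊢
      exact this)
  have h4 := s4 x hx
  have h5 : ∑ n ∈ Finset.Icc 1 ⌊x⌋₊, dd n ^ 2 / (n : ℝ) ≤
      ∑ n ∈ Ioc 0 ⌊x⌋₊, (f1 * (f1 * (f1 * f1))) n := by
    have e : Finset.Icc 1 ⌊x⌋₊ = Ioc 0 ⌊x⌋₊ := rfl
    rw [e]
    refine Finset.sum_le_sum fun n _ => ?_
    rw [← mul_assoc f1 f1 (f1 * f1)]
    exact f4_ge n
  refine h5.trans (h4.trans (le_of_eq ?_))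
  push_cast
  norm_num

end Pool.Agent.TH360.J4554
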