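import Pool.Agent.TH360.BqCount

/-!
Many orthogonal three-dimensional blocks: most of them are good.
-/

set_option autoImplicit false

namespace Pool.Agent.TH360.BqG

open Module Pool.Agent.Helper855.Bq

variable {E V : Type*} [NormedAddCommGroup E] [InnerProductSpace ℝ E]
  [NormedAddCommGroup V] [InnerProductSpace ℝ V]

/-- In a family of orthogonal blocks, more than `k` of them contain one satisfying the
dichotomy. -/
theorem blocks [FiniteDimensional ℝ V] {β σ : Type*} [Fintype β] [Fintype σ] [DecidableEq β]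
    [DecidableEq σ] (k : ℕ) (hβ : k + 3 ≤ Fintype.card β)
    (hV : finrank ℝ V ≤ 3 * Fintype.card β + Fintype.card σ + k) {F : E → V}
    (hF : ∀ u v, ‖u‖ = 1 → ‖v‖ = 1 → inner ℝ u v = (0 : ℝ) → ‖F u - F v‖ = 1)
    (e : (β × Fin 3) ⊕ σ → E) (he : Orthonormal ℝ e) (S : Finset β) (hS : k < S.card)
    (a b : β → ℝ) (hab : ∀ i ∈ S, a i ^ 2 + b i ^ 2 = 1) :
    ∃ i ∈ S, ‖F (a i • e (Sum.inl (i, 0)) + b i • e (Sum.inl (i, 1))) -
        F (e (Sum.inl (i, 0)))‖ ^ 2 = 1 - a i ∨
      ‖F (a i • e (Sum.inl (i, 0)) + b i • e (Sum.inl (i, 1))) -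
        F (e (Sum.inl (i, 0)))‖ ^ 2 = 1 + a i := by
  have n1 : ∀ x, ‖e x‖ = 1 := he.1
  have o1 : ∀ x y, x ≠ y → inner ℝ (e x) (e y) = (0 : ℝ) := fun x y h => he.2 h
  have o : ∀ (i : β) (k l : Fin 3), k ≠ l →
      inner ℝ (e (Sum.inl (i, k))) (e (Sum.inl (i, l))) = (0 : ℝ) := by
    intro i k l hkl
    exact o1 _ _ (by simpa using hkl)
  set A : β ⊕ σ → Set V := Sum.elim
    (fun i => img F (e (Sum.inl (i, 0))) (e (Sum.inl (i, 1))) (e (Sum.inl (i, 2))))
    (fun j => {F (e (Sum.inr j))}) with hA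
  have hF' : ∀ i : β, ∀ u ∈ Submodule.span ℝ {e (Sum.inl (i, 0)), e (Sum.inl (i, 1)),
      e (Sum.inl (i, 2))}, ∀ v ∈ Submodule.span ℝ {e (Sum.inl (i, 0)), e (Sum.inl (i, 1)),
      e (Sum.inl (i, 2))}, ‖u‖ = 1 → ‖v‖ = 1 → inner ℝ u v = (0 : ℝ) → ‖F u - F v‖ = 1 :=
    fun i u _ v _ hu hv huv => hF u v hu hv huv
  have sp : ∀ (i : β) (y : E), (∀ l : Fin 3, inner ℝ (e (Sum.inl (i, l))) y = (0 : ℝ)) →
      ∀ u ∈ Submodule.span ℝ {e (Sum.inl (i, 0)), e (Sum.inl (i, 1)), e (Sum.inl (i, 2))},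
      inner ℝ u y = (0 : ℝ) := by
    intro i y hy u hu
    have : Submodule.span ℝ {e (Sum.inl (i, 0)), e (Sum.inl (i, 1)), e (Sum.inl (i, 2))} ≤
        (Submodule.span ℝ {y})ᗮ := by
      rw [Submodule.span_le]
      intro z hz
      simp only [Set.mem_insert_iff, Set.mem_singleton_iff] at hz
      rw [SetLike.mem_coe, Submodule.mem_orthogonal_singleton_iff_inner_left]
      rcases hz with rfl | rfl | rfl
      exacts [hy 0, hy 1, hy 2]
    have := this hu
    rwa [Submodule.mem_orthogonal_singleton_iff_inner_left] at this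
  have H : GFam A :=
    { ne := by
        rintro (i | j)
        · exact ⟨F (e (Sum.inl (i, 0))), e (Sum.inl (i, 0)), Submodule.subset_span (by simp),
            n1 _, rfl⟩
        · exact ⟨F (e (Sum.inr j)), rfl⟩
      unit := by
        rintro (i | i) (j | j) hij x hx y hy
        · obtain ⟨u, hu, hu1, rfl⟩ := hx
          obtain ⟨v, hv, hv1, rfl⟩ := hy
          have hij' : i ≠ j := fun h => hij (by rw [h])
          refine hF u v hu1 hv1 (sp i v (fun l => ?_) u hu)
          rw [real_inner_comm]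
          refine sp j _ (fun l' => ?_) v hv
          exact o1 _ _ (by simp [hij'.symm])
        · obtain ⟨u, hu, hu1, rfl⟩ := hx
          have hy' : y = F (e (Sum.inr j)) := hy
          subst hy'
          refine hF u _ hu1 (n1 _) (sp i _ (fun l => ?_) u hu)
          exact o1 _ _ (by simp)
        · obtain ⟨v, hv, hv1, rfl⟩ := hy
          have hx' : x = F (e (Sum.inr i)) := hx
          subst hx'
          refine hF _ v (n1 _) hv1 ?_
          rw [real_inner_comm]
          refine sp j _ (fun l => ?_) v hv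
          exact o1 _ _ (by simp)
        · have hx' : x = F (e (Sum.inr i)) := hx
          have hy' : y = F (e (Sum.inr j)) := hy
          subst hx' hy'
          exact hF _ _ (n1 _) (n1 _) (o1 _ _ (by simpa using hij)) }
  have hnt : Nontrivial (β ⊕ σ) := by
    rw [← Fintype.one_lt_card_iff_nontrivial, Fintype.card_sum]; omega
  choose c hc1 hc2 using fun i => H.exists_center i
  choose r hr using fun i => H.exists_radius hc1 hc2 i
  have h3 : ∀ i : β, 3 ≤ finrank ℝ (dir (A (Sum.inl i))) := by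
    intro i
    obtain ⟨j, hj⟩ := exists_ne (Sum.inl i : β ⊕ σ)
    obtain ⟨y, hy⟩ := H.ne j
    obtain ⟨x, hx⟩ := H.ne (Sum.inl i)
    refine three_le (n1 _) (n1 _) (n1 _) (o i 0 1 (by decide)) (o i 0 2 (by decide))
      (o i 1 2 (by decide)) (hF' i) (c := c (Sum.inl i)) (y := y) (hc1 (Sum.inl i))
      (hr (Sum.inl i)) (hc2 (Sum.inl i) j hj.symm y hy) ?_
    rw [← hr (Sum.inl i) x hx]
    exact H.radius hc1 hc2 hj.symm hx hy
  have hσ : ∀ j : σ, r (Sum.inr j) = 0 := by
    intro j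
    have hm : F (e (Sum.inr j)) ∈ A (Sum.inr j) := rfl
    have h4 := hc1 _ _ hm
    have h5 : dir (A (Sum.inr j)) = ⊥ := by
      unfold dir
      rw [Submodule.span_eq_bot]
      rintro z ⟨x, hx, x', hx', rfl⟩
      have e1 : x = F (e (Sum.inr j)) := hx
      have e2 : x' = F (e (Sum.inr j)) := hx'
      rw [e1, e2, sub_self]
    rw [h5, Submodule.mem_bot] at h4
    rw [← hr _ _ hm, h4]; simp
  by_contra hcon
  push Not at hcon
  have hcard := bad_card H hc1 hc2 hr k hβ hV h3 hσ S (by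
    rintro i hi ⟨f, hr2⟩
    have := block_dist (n1 (Sum.inl (i, 0))) (n1 (Sum.inl (i, 1))) (n1 (Sum.inl (i, 2)))
      (o i 0 1 (by decide)) (o i 0 2 (by decide))
      (o i 1 2 (by decide)) (dir (A (Sum.inl i))) f (c := c (Sum.inl i)) (by
        intro u hu hu1
        exact ⟨hc1 (Sum.inl i) _ ⟨u, hu, hu1, rfl⟩,
          by rw [hr (Sum.inl i) _ ⟨u, hu, hu1, rfl⟩, hr2]⟩) (hF' i) (hab i hi)
    rcases this with h | h
    · exact (hcon i hi).1 h
    · exact (hcon i hi).2 h)
  omega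

/-- A unit vector orthogonal to finitely many given vectors. -/
lemma exists_unit_orth' [FiniteDimensional ℝ E] {κ : Type*} [Fintype κ] (v : κ → E)
    (hE : Fintype.card κ < finrank ℝ E) :
    ∃ n : E, ‖n‖ = 1 ∧ ∀ i, inner ℝ (v i) n = (0 : ℝ) := by
  have h1 := Submodule.finrank_add_finrank_orthogonal (Submodule.span ℝ (Set.range v))
  have h2 : finrank ℝ (Submodule.span ℝ (Set.range v)) ≤ Fintype.card κ := finrank_range_le_card v
  have h3 : 0 < finrank ℝ (Submodule.span ℝ (Set.range v))ᗮ := by omega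
  have := Module.finrank_pos_iff.mp h3
  obtain ⟨⟨m, hm⟩, hm0⟩ := exists_ne (0 : (Submodule.span ℝ (Set.range v))ᗮ)
  have hm1 : m ≠ 0 := fun h => hm0 (by simpa using h)
  rw [Submodule.mem_orthogonal] at hm
  refine ⟨(‖m‖⁻¹ : ℝ) • m, ?_, ?_⟩
  · rw [norm_smul, norm_inv, norm_norm, inv_mul_cancel₀ (norm_ne_zero_iff.mpr hm1)]
  · intro i
    rw [inner_smul_right, hm (v i) (Submodule.subset_span ⟨i, rfl⟩), mul_zero]

end Pool.Agent.TH360.BqG
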