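import Pool.Agent.Helper855.BqFinal

/-!
Families of sets in a Euclidean space such that all distances between different sets are one:
a dimension count for an arbitrary number of sets.
-/

set_option autoImplicit false

namespace Pool.Agent.TH360.BqG

open Module Pool.Agent.Helper855.Bq

variable {V : Type*} [NormedAddCommGroup V] [InnerProductSpace ℝ V] {ι : Type*}

/-- Nonempty sets with all distances between different ones equal to one. -/
structure GFam (A : ι → Set V) : Prop where
  ne : ∀ i, (A i).Nonempty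
  unit : ∀ i j, i ≠ j → ∀ x ∈ A i, ∀ y ∈ A j, ‖x - y‖ = 1

namespace GFam

variable {A : ι → Set V} (H : GFam A)

include H

lemma orth {i j : ι} (hij : i ≠ j) : ∀ z ∈ dir (A i), ∀ w ∈ dir (A j), inner ℝ z w = 0 := by
  intro z hz w hw
  rw [real_inner_comm]
  revert w
  refine orth_of_forall fun y hy y' hy' => ?_
  rw [real_inner_comm]
  refine orth_of_forall (fun x hx x' hx' => ?_) z hz
  exact four_orth (H.unit i j hij x hx y hy) (H.unit i j hij x hx y' hy')
    (H.unit i j hij x' hx' y hy) (H.unit i j hij x' hx' y' hy')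

/-- The centre of one of the sets. -/
lemma exists_center [FiniteDimensional ℝ V] [Nontrivial ι] (i : ι) :
    ∃ c : V, (∀ x ∈ A i, x - c ∈ dir (A i)) ∧
    ∀ j, i ≠ j → ∀ y ∈ A j, ∀ z ∈ dir (A i), inner ℝ z (y - c) = 0 := by
  obtain ⟨x0, hx0⟩ := H.ne i
  obtain ⟨j0, hj0⟩ : ∃ j0 : ι, i ≠ j0 := by
    obtain ⟨j, hj⟩ := exists_ne i
    exact ⟨j, hj.symm⟩
  obtain ⟨y0, hy0⟩ := H.ne j0
  obtain ⟨a, ha, b, hb, hab⟩ := Submodule.exists_add_mem_mem_orthogonal (K := dir (A i)) (y0 - x0)
  refine ⟨x0 + a, ?_, ?_⟩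
  · intro x hx
    have : x - (x0 + a) = (x - x0) - a := by abel
    rw [this]
    exact (dir (A i)).sub_mem (sub_mem_dir hx hx0) ha
  · intro j hj y hy z hz
    have e : y - (x0 + a) = (y - y0) + b := by
      have : b = y0 - x0 - a := by rw [hab]; abel
      rw [this]; abel
    rw [e, inner_add_right, (Submodule.mem_orthogonal _ _).mp hb z hz, add_zero]
    refine orth_of_forall (fun x hx x' hx' => ?_) z hz
    exact four_orth (H.unit i j hj x hx y hy) (H.unit i j0 hj0 x hx y0 hy0)
      (H.unit i j hj x' hx' y hy) (H.unit i j0 hj0 x' hx' y0 hy0)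

lemma center_orth {c : ι → V} (hc1 : ∀ i, ∀ x ∈ A i, x - c i ∈ dir (A i))
    (hc2 : ∀ i j, i ≠ j → ∀ y ∈ A j, ∀ z ∈ dir (A i), inner ℝ z (y - c i) = 0) (i j k : ι) :
    ∀ z ∈ dir (A k), inner ℝ z (c i - c j) = 0 := by
  have key : ∀ i k, ∀ z ∈ dir (A k), inner ℝ z (c i - c k) = 0 := by
    intro i k z hz
    by_cases hik : i = k
    · rw [hik, sub_self, inner_zero_right]
    · obtain ⟨x, hx⟩ := H.ne i
      have e : c i - c k = (x - c k) - (x - c i) := by abel
      rw [e, inner_sub_right, hc2 k i (Ne.symm hik) x hx z hz,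
        H.orth (Ne.symm hik) z hz _ (hc1 i x hx), sub_zero]
  intro z hz
  have e : c i - c j = (c i - c k) - (c j - c k) := by abel
  rw [e, inner_sub_right, key i k z hz, key j k z hz, sub_zero]

lemma radius {c : ι → V} (hc1 : ∀ i, ∀ x ∈ A i, x - c i ∈ dir (A i))
    (hc2 : ∀ i j, i ≠ j → ∀ y ∈ A j, ∀ z ∈ dir (A i), inner ℝ z (y - c i) = 0) {i j : ι}
    (hij : i ≠ j) {x y : V} (hx : x ∈ A i) (hy : y ∈ A j) :
    ‖x - c i‖ ^ 2 + ‖y - c i‖ ^ 2 = 1 := by
  have h1 := hc2 i j hij y hy _ (hc1 i x hx)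
  have h2 := norm_sub_sq_real (x - c i) (y - c i)
  have e : x - c i - (y - c i) = x - y := by abel
  rw [e, h1, H.unit i j hij x hx y hy] at h2
  linarith

lemma exists_radius [Nontrivial ι] {c : ι → V} (hc1 : ∀ i, ∀ x ∈ A i, x - c i ∈ dir (A i))
    (hc2 : ∀ i j, i ≠ j → ∀ y ∈ A j, ∀ z ∈ dir (A i), inner ℝ z (y - c i) = 0) (i : ι) :
    ∃ r : ℝ, ∀ x ∈ A i, ‖x - c i‖ ^ 2 = r := by
  obtain ⟨j, hj⟩ := exists_ne i
  obtain ⟨y, hy⟩ := H.ne j
  refine ⟨1 - ‖y - c i‖ ^ 2, fun x hx => ?_⟩
  have := H.radius hc1 hc2 hj.symm hx hy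
  linarith

lemma radii {c : ι → V} (hc1 : ∀ i, ∀ x ∈ A i, x - c i ∈ dir (A i))
    (hc2 : ∀ i j, i ≠ j → ∀ y ∈ A j, ∀ z ∈ dir (A i), inner ℝ z (y - c i) = 0) {r : ι → ℝ}
    (hr : ∀ i, ∀ x ∈ A i, ‖x - c i‖ ^ 2 = r i) {i j : ι} (hij : i ≠ j) :
    r i + r j + ‖c i - c j‖ ^ 2 = 1 := by
  obtain ⟨x, hx⟩ := H.ne i
  obtain ⟨y, hy⟩ := H.ne j
  have h1 := H.radius hc1 hc2 hij hx hy
  have h2 := norm_sub_sq_real (y - c j) (c i - c j)
  have e : y - c j - (c i - c j) = y - c i := by abel
  rw [e, H.center_orth hc1 hc2 i j j _ (hc1 j y hy), hr j y hy] at h2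
  rw [hr i x hx, h2] at h1
  linarith

/-- The dimension count. -/
theorem count [FiniteDimensional ℝ V] [Fintype ι] [DecidableEq ι] {c : ι → V}
    (hc1 : ∀ i, ∀ x ∈ A i, x - c i ∈ dir (A i))
    (hc2 : ∀ i j, i ≠ j → ∀ y ∈ A j, ∀ z ∈ dir (A i), inner ℝ z (y - c i) = 0) {s : ι → ℝ}
    (hs : ∀ i j, i ≠ j → ‖c i - c j‖ ^ 2 = s i + s j) (i1 : ι) (h1 : 0 ≤ s i1)
    (K : Finset ι) (hK : i1 ∉ K) (hpos : ∀ i ∈ K, 0 < s i) :
    K.card + ∑ i, finrank ℝ (dir (A i)) ≤ finrank ℝ V := by
  have hin : ∀ i ∈ K, ∀ j ∈ K, inner ℝ (c i - c i1) (c j - c i1) =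
      s i1 + if i = j then s i else 0 := by
    intro i hi j hj
    have hii : i ≠ i1 := fun h => hK (h ▸ hi)
    have hji : j ≠ i1 := fun h => hK (h ▸ hj)
    by_cases hij : i = j
    · subst hij
      rw [real_inner_self_eq_norm_sq, hs i i1 hii, if_pos rfl]; ring
    · have h2 := norm_sub_sq_real (c i - c i1) (c j - c i1)
      rw [sub_sub_sub_cancel_right, hs i j hij, hs i i1 hii, hs j i1 hji] at h2
      rw [if_neg hij]; linarith
  let Φ : ((i : ι) → dir (A i)) × (K → ℝ) →ₗ[ℝ] V :=
    LinearMap.coprod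
      (LinearMap.lsum ℝ (fun i => dir (A i)) ℝ (fun i => (dir (A i)).subtype))
      (Fintype.linearCombination ℝ (fun i : K => c i - c i1))
  have hΦ : ∀ x l, Φ (x, l) = ∑ i, (x i : V) + ∑ i : K, l i • (c i - c i1) := by
    intro x l
    simp [Φ, LinearMap.coprod_apply, LinearMap.lsum_apply, Fintype.linearCombination_apply]
  have hinj : Function.Injective Φ := by
    rw [injective_iff_map_eq_zero]
    rintro ⟨x, l⟩ h
    rw [hΦ] at h
    have hx : ∀ j, x j = 0 := by
      intro j
      have h2 := congrArg (fun z => (inner ℝ (x j : V) z : ℝ)) h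
      simp only [inner_add_right, inner_sum, inner_smul_right, inner_zero_right] at h2
      have h3 : ∑ i : K, l i * inner ℝ (x j : V) (c i - c i1) = 0 := by
        refine Finset.sum_eq_zero fun i _ => ?_
        rw [H.center_orth hc1 hc2 i i1 j _ (x j).2, mul_zero]
      have h4 : ∑ i, inner ℝ (x j : V) (x i : V) = ‖(x j : V)‖ ^ 2 := by
        rw [Finset.sum_eq_single j]
        · exact real_inner_self_eq_norm_sq _
        · intro i _ hij
          exact H.orth hij.symm _ (x j).2 _ (x i).2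
        · intro h; exact absurd (Finset.mem_univ _) h
      rw [h3, h4, add_zero] at h2
      have h5 : (x j : V) = 0 := norm_eq_zero.mp (pow_eq_zero_iff two_ne_zero |>.mp h2)
      exact Subtype.ext h5
    have hl : ∑ i : K, l i • (c i - c i1) = 0 := by
      have : ∑ i, (x i : V) = 0 := Finset.sum_eq_zero fun i _ => by rw [hx i]; rfl
      rw [this, zero_add] at h
      exact h
    have hj : ∀ j : K, s i1 * (∑ i, l i) + s j * l j = 0 := by
      intro j
      have h2 := congrArg (fun z => (inner ℝ (c j - c i1) z : ℝ)) hl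
      simp only [inner_sum, inner_smul_right, inner_zero_right] at h2
      have h3 : ∀ i : K, l i * inner ℝ (c j - c i1) (c i - c i1) =
          l i * s i1 + (if i = j then s j * l j else 0) := by
        intro i
        rw [hin j j.2 i i.2]
        by_cases hij : i = j
        · subst hij; rw [if_pos rfl, if_pos rfl]; ring
        · rw [if_neg (fun h => hij (Subtype.ext h.symm)), if_neg hij]; ring
      rw [Finset.sum_congr rfl (fun i _ => h3 i), Finset.sum_add_distrib, Finset.sum_ite_eq'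
        Finset.univ j, if_pos (Finset.mem_univ _), ← Finset.sum_mul] at h2
      linarith
    have hsum : s i1 * (∑ i, l i) ^ 2 + ∑ j : K, s j * l j ^ 2 = 0 := by
      have : ∑ j : K, l j * (s i1 * (∑ i, l i) + s j * l j) = 0 :=
        Finset.sum_eq_zero fun j _ => by rw [hj j, mul_zero]
      have e : ∀ j : K, l j * (s i1 * (∑ i, l i) + s j * l j) =
          l j * (s i1 * (∑ i, l i)) + s j * l j ^ 2 := fun j => by ring
      rw [Finset.sum_congr rfl (fun j _ => e j), Finset.sum_add_distrib, ← Finset.sum_mul] at this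
      linarith
    have hnn : ∀ j ∈ (Finset.univ : Finset K), 0 ≤ s j * l j ^ 2 := fun j _ =>
      mul_nonneg (hpos j j.2).le (sq_nonneg _)
    have hz : ∑ j : K, s j * l j ^ 2 = 0 := by
      have h2 := Finset.sum_nonneg hnn
      have h3 := mul_nonneg h1 (sq_nonneg (∑ i, l i))
      linarith
    have hl0 : ∀ j : K, l j = 0 := by
      intro j
      have h2 := (Finset.sum_eq_zero_iff_of_nonneg hnn).mp hz j (Finset.mem_univ _)
      rcases mul_eq_zero.mp h2 with h3 | h3
      · exact absurd h3 (hpos j j.2).ne'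
      · exact pow_eq_zero_iff two_ne_zero |>.mp h3
    exact Prod.ext (funext hx) (funext hl0)
  have hle := LinearMap.finrank_le_finrank_of_injective hinj
  rw [Module.finrank_prod, Module.finrank_pi_fintype, Module.finrank_fintype_fun_eq_card,
    Fintype.card_coe] at hle
  omega

end GFam

/-- At most `k` blocks are not good. -/
theorem bad_card [FiniteDimensional ℝ V] {β σ : Type*} [Fintype β] [Fintype σ] [DecidableEq β]
    [DecidableEq σ] {A : β ⊕ σ → Set V} (H : GFam A) {c : β ⊕ σ → V}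
    (hc1 : ∀ i, ∀ x ∈ A i, x - c i ∈ dir (A i))
    (hc2 : ∀ i j, i ≠ j → ∀ y ∈ A j, ∀ z ∈ dir (A i), inner ℝ z (y - c i) = 0) {r : β ⊕ σ → ℝ}
    (hr : ∀ i, ∀ x ∈ A i, ‖x - c i‖ ^ 2 = r i) (k : ℕ) (hβ : k + 3 ≤ Fintype.card β)
    (hV : finrank ℝ V ≤ 3 * Fintype.card β + Fintype.card σ + k)
    (h3 : ∀ i : β, 3 ≤ finrank ℝ (dir (A (Sum.inl i)))) (hσ : ∀ j : σ, r (Sum.inr j) = 0)
    (Bad : Finset β)
    (hBad : ∀ i ∈ Bad, ¬ (finrank ℝ (dir (A (Sum.inl i))) ≤ 3 ∧ r (Sum.inl i) = 1 / 2)) :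
    Bad.card ≤ k := by
  obtain ⟨s, hsd⟩ : ∃ s : β ⊕ σ → ℝ, ∀ i, s i = 1 / 2 - r i := ⟨_, fun i => rfl⟩
  have hs : ∀ i j, i ≠ j → ‖c i - c j‖ ^ 2 = s i + s j := by
    intro i j hij
    have := H.radii hc1 hc2 hr hij
    rw [hsd, hsd]; linarith
  have hnn : ∀ i j, i ≠ j → 0 ≤ s i + s j := fun i j hij => by rw [← hs i j hij]; positivity
  have hsum : 3 * Fintype.card β + (Bad.filter (fun i => 3 < finrank ℝ (dir (A (Sum.inl i))))).card
      ≤ ∑ i, finrank ℝ (dir (A i)) := by
    rw [Fintype.sum_sum_type]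
    have h4 : ∑ i : β, (3 + if i ∈ Bad.filter (fun i => 3 < finrank ℝ (dir (A (Sum.inl i))))
        then 1 else 0) ≤ ∑ i : β, finrank ℝ (dir (A (Sum.inl i))) := by
      refine Finset.sum_le_sum fun i _ => ?_
      have := h3 i
      split_ifs with h
      · have := (Finset.mem_filter.mp h).2
        omega
      · omega
    rw [Finset.sum_add_distrib, Finset.sum_const, Finset.card_univ, smul_eq_mul,
      Finset.sum_boole, Finset.filter_mem_eq_inter, Finset.univ_inter] at h4
    simp only [Nat.cast_id] at h4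
    omega
  have hsplit := Finset.card_filter_add_card_filter_not (s := Bad)
    (fun i => 3 < finrank ℝ (dir (A (Sum.inl i))))
  by_cases hz : ∃ i0, s i0 = 0
  · obtain ⟨i0, hi0⟩ := hz
    have hge : ∀ i, 0 ≤ s i := by
      intro i
      by_cases h : i = i0
      · rw [h, hi0]
      · have := hnn i i0 h
        rw [hi0, add_zero] at this
        exact this
    have hcount := H.count hc1 hc2 hs i0 hi0.ge (Finset.univ.filter (fun i => 0 < s i))
      (by simp [hi0]) (by simp)
    have hK : Fintype.card σ +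
        (Bad.filter (fun i => ¬ 3 < finrank ℝ (dir (A (Sum.inl i))))).card ≤
        (Finset.univ.filter (fun i => 0 < s i)).card := by
      have hsub : (Finset.disjSum (Bad.filter (fun i => ¬ 3 < finrank ℝ (dir (A (Sum.inl i)))))
          (Finset.univ : Finset σ)) ⊆ Finset.univ.filter (fun i => 0 < s i) := by
        intro i hi
        rw [Finset.mem_filter]
        refine ⟨Finset.mem_univ _, lt_of_le_of_ne (hge i) (Ne.symm ?_)⟩
        rcases i with i | j
        · rw [Finset.inl_mem_disjSum, Finset.mem_filter] at hi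
          have h5 := hBad i hi.1
          intro h6
          apply h5
          refine ⟨not_lt.mp hi.2, ?_⟩
          rw [hsd] at h6
          linarith
        · rw [hsd, hσ]; norm_num
      have := Finset.card_le_card hsub
      rw [Finset.card_disjSum, Finset.card_univ] at this
      omega
    omega
  · exfalso
    push Not at hz
    obtain ⟨a, b, hab⟩ : ∃ a b : β, a ≠ b := by
      have : 1 < Fintype.card β := by omega
      exact Fintype.one_lt_card_iff.mp this
    obtain ⟨i1, hi1⟩ : ∃ i1, 0 < s i1 := by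
      by_contra hcon
      push Not at hcon
      have h4 := hnn (Sum.inl a) (Sum.inl b) (by simpa using hab)
      have h5 := lt_of_le_of_ne (hcon (Sum.inl a)) (hz _)
      have h6 := lt_of_le_of_ne (hcon (Sum.inl b)) (hz _)
      linarith
    have hcount := H.count hc1 hc2 hs i1 hi1.le
      ((Finset.univ.filter (fun i => 0 < s i)).erase i1) (by simp)
      (fun i hi => (Finset.mem_filter.mp (Finset.mem_of_mem_erase hi)).2)
    rw [Finset.card_erase_of_mem (by simp [hi1])] at hcount
    have hneg : (Finset.univ.filter (fun i => ¬ 0 < s i)).card ≤ 1 := by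
      rw [Finset.card_le_one]
      intro i hi j hj
      by_contra hij
      rw [Finset.mem_filter] at hi hj
      have h4 := hnn i j hij
      have h5 := lt_of_le_of_ne (not_lt.mp hi.2) (hz _)
      have h6 := lt_of_le_of_ne (not_lt.mp hj.2) (hz _)
      linarith
    have hall := Finset.card_filter_add_card_filter_not (s := (Finset.univ : Finset (β ⊕ σ)))
      (fun i => 0 < s i)
    rw [Finset.card_univ, Fintype.card_sum] at hall
    omega

end Pool.Agent.TH360.BqG
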