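import Pool.Agent.TH360.BqBlocks

/-!
Circumcentres of families of pairs of points with all cross distances one, and the cross lemma
in every codimension.
-/

set_option autoImplicit false

namespace Pool.Agent.TH360.BqG

open Module Pool.Agent.Helper855.Bq

variable {E V : Type*} [NormedAddCommGroup E] [InnerProductSpace ℝ E]
  [NormedAddCommGroup V] [InnerProductSpace ℝ V] {κ : Type*}

/-- Pairs of points such that all distances between points of different pairs are one. -/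
def CrossU (p q : κ → E) : Prop :=
  ∀ i j, i ≠ j → ‖p i - p j‖ = 1 ∧ ‖p i - q j‖ = 1 ∧ ‖q i - q j‖ = 1

/-- A quadratic form identity for points with distances `‖m i - m j‖² = t i + t j`. -/
lemma quad [Fintype κ] [DecidableEq κ] {m : κ → E} {t : κ → ℝ}
    (h : ∀ i j, i ≠ j → ‖m i - m j‖ ^ 2 = t i + t j) (l : κ → ℝ) (hl : ∑ i, l i = 0) :
    ‖∑ i, l i • m i‖ ^ 2 = ∑ i, t i * l i ^ 2 := by
  have hin : ∀ i j, inner ℝ (m i) (m j) =
      ‖m i‖ ^ 2 / 2 + ‖m j‖ ^ 2 / 2 - t i / 2 - t j / 2 + if i = j then t i else 0 := by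
    intro i j
    by_cases hij : i = j
    · subst hij; rw [real_inner_self_eq_norm_sq, if_pos rfl]; ring
    · have h2 := norm_sub_sq_real (m i) (m j)
      rw [h i j hij] at h2
      rw [if_neg hij]; linarith
  rw [← real_inner_self_eq_norm_sq, sum_inner]
  have e : ∀ i, inner ℝ (l i • m i) (∑ j, l j • m j) = t i * l i ^ 2 +
      l i * ((∑ j, l j * (‖m j‖ ^ 2 / 2 - t j / 2))) := by
    intro i
    rw [inner_sum]
    have e1 : ∀ j, inner ℝ (l i • m i) (l j • m j) =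
        l i * (l j * (‖m j‖ ^ 2 / 2 - t j / 2)) + l i * (‖m i‖ ^ 2 / 2 - t i / 2) * l j +
        (if j = i then t i * l i ^ 2 else 0) := by
      intro j
      rw [inner_smul_left, inner_smul_right, hin, conj_trivial]
      by_cases hij : i = j
      · subst hij; rw [if_pos rfl, if_pos rfl]; ring
      · rw [if_neg hij, if_neg (fun h => hij h.symm)]; ring
    rw [Finset.sum_congr rfl (fun j _ => e1 j), Finset.sum_add_distrib, Finset.sum_add_distrib,
      Finset.sum_ite_eq' Finset.univ i, if_pos (Finset.mem_univ _), ← Finset.mul_sum,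
      ← Finset.mul_sum, hl]
    ring
  rw [Finset.sum_congr rfl (fun i _ => e i), Finset.sum_add_distrib, ← Finset.sum_mul, hl]
  ring

/-- Another identity. -/
lemma gram [Fintype κ] [DecidableEq κ] {v : κ → V} {t : κ → ℝ} {k : ℝ}
    (h : ∀ i j, inner ℝ (v i) (v j) = (if i = j then t i else 0) - k) (l : κ → ℝ) :
    ‖∑ i, l i • v i‖ ^ 2 = ∑ i, t i * l i ^ 2 - k * (∑ i, l i) ^ 2 := by
  rw [← real_inner_self_eq_norm_sq, sum_inner]
  have e : ∀ i, inner ℝ (l i • v i) (∑ j, l j • v j) = t i * l i ^ 2 -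
      l i * (k * ∑ j, l j) := by
    intro i
    rw [inner_sum]
    have e1 : ∀ j, inner ℝ (l i • v i) (l j • v j) =
        (if j = i then t i * l i ^ 2 else 0) - (l i * k) * l j := by
      intro j
      rw [inner_smul_left, inner_smul_right, h, conj_trivial]
      by_cases hij : i = j
      · subst hij; rw [if_pos rfl, if_pos rfl]; ring
      · rw [if_neg hij, if_neg (fun h => hij h.symm)]; ring
    rw [Finset.sum_congr rfl (fun j _ => e1 j), Finset.sum_sub_distrib,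
      Finset.sum_ite_eq' Finset.univ i, if_pos (Finset.mem_univ _), ← Finset.mul_sum]
    ring
  rw [Finset.sum_congr rfl (fun i _ => e i), Finset.sum_sub_distrib, ← Finset.sum_mul]
  ring

/-- The relations between midpoints. -/
lemma CrossU.mid {p q : κ → E} (h : CrossU p q) {i j : κ} (hij : i ≠ j) :
    inner ℝ (p i - q i) ((1 / 2 : ℝ) • (p j + q j) - (1 / 2 : ℝ) • (p i + q i)) = (0 : ℝ) ∧
    ‖(1 / 2 : ℝ) • (p i + q i) - (1 / 2 : ℝ) • (p j + q j)‖ ^ 2 =
      (1 / 2 - ‖p i - q i‖ ^ 2 / 4) + (1 / 2 - ‖p j - q j‖ ^ 2 / 4) := by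
  obtain ⟨h1, h2, h3⟩ := h i j hij
  obtain ⟨h1', h2', h3'⟩ := h j i hij.symm
  obtain ⟨r1, r2, r3⟩ := mid_rel (p := p i) (q := q i) (x := p j) (y := q j) h1 h2
    (by rw [norm_sub_rev]; exact h2') h3
  refine ⟨r1, ?_⟩
  rw [norm_sub_rev, r3]; ring

/-- The circumcentre. -/
lemma exists_circum [Fintype κ] [DecidableEq κ] [Nonempty κ] {p q : κ → E} (h : CrossU p q)
    (ht : ∀ i, 0 < 1 / 2 - ‖p i - q i‖ ^ 2 / 4) :
    ∃ (z : E) (k : ℝ), 0 < k ∧ k * ∑ i, (1 / 2 - ‖p i - q i‖ ^ 2 / 4)⁻¹ = 1 ∧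
      (∀ i, ‖p i - z‖ ^ 2 = 1 / 2 - k) ∧ (∀ i, ‖q i - z‖ ^ 2 = 1 / 2 - k) := by
  obtain ⟨t, htd⟩ : ∃ t : κ → ℝ, ∀ i, t i = 1 / 2 - ‖p i - q i‖ ^ 2 / 4 := ⟨_, fun i => rfl⟩
  have ht0 : ∀ i, 0 < t i := fun i => by rw [htd]; exact ht i
  have hT : 0 < ∑ i, (t i)⁻¹ :=
    Finset.sum_pos (fun i _ => inv_pos.mpr (ht0 i)) Finset.univ_nonempty
  obtain ⟨k, hk⟩ : ∃ k : ℝ, k = (∑ i, (t i)⁻¹)⁻¹ := ⟨_, rfl⟩
  have hk0 : 0 < k := by rw [hk]; exact inv_pos.mpr hT
  have hkT : k * ∑ i, (t i)⁻¹ = 1 := by rw [hk]; exact inv_mul_cancel₀ hT.ne'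
  obtain ⟨m, hm⟩ : ∃ m : κ → E, ∀ i, m i = (1 / 2 : ℝ) • (p i + q i) := ⟨_, fun i => rfl⟩
  have hmm : ∀ i j, i ≠ j → ‖m i - m j‖ ^ 2 = t i + t j := by
    intro i j hij
    rw [hm, hm, htd, htd, (h.mid hij).2]
  obtain ⟨w, hw⟩ : ∃ w : κ → ℝ, ∀ i, w i = k * (t i)⁻¹ := ⟨_, fun i => rfl⟩
  have hw1 : ∑ i, w i = 1 := by
    rw [Finset.sum_congr rfl (fun i _ => hw i), ← Finset.mul_sum, hkT]
  have hwt : ∀ i, t i * w i = k := by
    intro i
    rw [hw, mul_comm, mul_assoc, inv_mul_cancel₀ (ht0 i).ne', mul_one]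
  have hz : ∀ j, m j - ∑ i, w i • m i = ∑ i, ((if i = j then 1 else 0) - w i) • m i := by
    intro j
    have : ∀ i, ((if i = j then (1 : ℝ) else 0) - w i) • m i =
        (if i = j then m i else 0) - w i • m i := by
      intro i
      rw [sub_smul]
      by_cases hij : i = j
      · rw [if_pos hij, if_pos hij, one_smul]
      · rw [if_neg hij, if_neg hij, zero_smul]
    rw [Finset.sum_congr rfl (fun i _ => this i), Finset.sum_sub_distrib,
      Finset.sum_ite_eq' Finset.univ j, if_pos (Finset.mem_univ _)]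
  have hmz : ∀ j, ‖m j - ∑ i, w i • m i‖ ^ 2 = t j - k := by
    intro j
    rw [hz, quad hmm]
    · have e : ∀ i, t i * ((if i = j then (1 : ℝ) else 0) - w i) ^ 2 =
          (if i = j then t i - 2 * k else 0) + k * w i := by
        intro i
        have := hwt i
        by_cases hij : i = j
        · rw [if_pos hij, if_pos hij]
          linear_combination (-2 + w i) * this
        · rw [if_neg hij, if_neg hij]
          linear_combination (w i) * this
      rw [Finset.sum_congr rfl (fun i _ => e i), Finset.sum_add_distrib,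
        Finset.sum_ite_eq' Finset.univ j, if_pos (Finset.mem_univ _), ← Finset.mul_sum, hw1]
      ring
    · rw [Finset.sum_sub_distrib, Finset.sum_ite_eq' Finset.univ j,
        if_pos (Finset.mem_univ _), hw1, sub_self]
  have horth : ∀ j, inner ℝ (p j - q j) (m j - ∑ i, w i • m i) = (0 : ℝ) := by
    intro j
    have e : m j - ∑ i, w i • m i = ∑ i, w i • (m j - m i) := by
      rw [Finset.sum_congr rfl (fun i _ => smul_sub (w i) (m j) (m i)), Finset.sum_sub_distrib,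
        ← Finset.sum_smul, hw1, one_smul]
    rw [e, inner_sum]
    refine Finset.sum_eq_zero fun i _ => ?_
    rw [inner_smul_right]
    by_cases hij : i = j
    · rw [hij, sub_self, inner_zero_right, mul_zero]
    · have := (h.mid (i := j) (j := i) (fun h => hij h.symm)).1
      rw [← hm, ← hm] at this
      rw [← neg_sub (m i) (m j), inner_neg_right, this, neg_zero, mul_zero]
  refine ⟨∑ i, w i • m i, k, hk0, ?_, ?_, ?_⟩
  · have e : ∑ i, (1 / 2 - ‖p i - q i‖ ^ 2 / 4)⁻¹ = ∑ i, (t i)⁻¹ :=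
      Finset.sum_congr rfl (fun i _ => by rw [htd])
    rw [e, hkT]
  · intro j
    have e : p j - ∑ i, w i • m i = (1 / 2 : ℝ) • (p j - q j) + (m j - ∑ i, w i • m i) := by
      rw [hm j]; module
    rw [e, norm_add_sq_real, inner_smul_left, horth, hmz, norm_smul, htd]
    norm_num
    ring
  · intro j
    have e : q j - ∑ i, w i • m i = (-(1 / 2) : ℝ) • (p j - q j) + (m j - ∑ i, w i • m i) := by
      rw [hm j]; module
    rw [e, norm_add_sq_real, inner_smul_left, horth, hmz, norm_smul, htd]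
    norm_num
    ring

/-- **Cross lemma in codimension `c`.** Among `c + 1` short pairs with all cross distances one,
one satisfies the dichotomy. -/
theorem cross_gen [FiniteDimensional ℝ E] [FiniteDimensional ℝ V] [Fintype κ] [DecidableEq κ]
    (c : ℕ) (hE : 3 * (c + 3) ≤ finrank ℝ E) (hV : finrank ℝ V ≤ finrank ℝ E + c)
    {f : E → V} (hf : ∀ x y, ‖x - y‖ = 1 → ‖f x - f y‖ = 1) (hκ : Fintype.card κ = c + 1)
    {p q : κ → E} (h : CrossU p q) (hne : ∀ i, p i ≠ q i) (hsh : ∀ i, ‖p i - q i‖ ≤ 1 / 2) :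
    ∃ i, Dich f (p i) (q i) := by
  have hne' : Nonempty κ := by
    rw [← Fintype.card_pos_iff]; omega
  have t1 : ∀ i, 0 < ‖p i - q i‖ ^ 2 := by
    intro i
    have := norm_pos_iff.mpr (sub_ne_zero.mpr (hne i)); positivity
  have t2 : ∀ i, ‖p i - q i‖ ^ 2 ≤ 1 / 4 := by
    intro i
    have := pow_le_pow_left₀ (norm_nonneg _) (hsh i) 2
    norm_num at this ⊢; exact this
  obtain ⟨z, k, hk, -, hp, hq⟩ := exists_circum h (fun i => by linarith [t2 i])
  obtain ⟨n, hn1, hn⟩ := exists_unit_orth' (E := E)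
    (Sum.elim (fun i : κ => p i - z) (fun i : κ => q i - z))
    (by rw [Fintype.card_sum]; omega)
  obtain ⟨o, ho⟩ : ∃ o : E, o = z + Real.sqrt k • n := ⟨_, rfl⟩
  have hsk : Real.sqrt k ^ 2 = k := Real.sq_sqrt hk.le
  have hpo : ∀ i, ‖p i - o‖ ^ 2 = 1 / 2 := by
    intro i
    have e : p i - o = (p i - z) - Real.sqrt k • n := by rw [ho]; abel
    have h0 : inner ℝ (p i - z) n = (0 : ℝ) := hn (Sum.inl i)
    rw [e, norm_sub_sq_real, inner_smul_right, h0, norm_smul, hn1, hp, mul_one,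
      Real.norm_eq_abs, sq_abs, hsk]
    ring
  have hqo : ∀ i, ‖q i - o‖ ^ 2 = 1 / 2 := by
    intro i
    have e : q i - o = (q i - z) - Real.sqrt k • n := by rw [ho]; abel
    have h0 : inner ℝ (q i - z) n = (0 : ℝ) := hn (Sum.inr i)
    rw [e, norm_sub_sq_real, inner_smul_right, h0, norm_smul, hn1, hq, mul_one,
      Real.norm_eq_abs, sq_abs, hsk]
    ring
  have hs : Real.sqrt 2 * Real.sqrt 2 = 2 := Real.mul_self_sqrt (by norm_num)
  have hs0 : Real.sqrt 2 ≠ 0 := by positivity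
  have hsn : ‖Real.sqrt 2‖ ^ 2 = 2 := by rw [Real.norm_eq_abs, sq_abs, sq, hs]
  have unit : ∀ z : E, ‖z - o‖ ^ 2 = 1 / 2 → ‖Real.sqrt 2 • (z - o)‖ = 1 := by
    intro z hz
    have h3 : ‖Real.sqrt 2 • (z - o)‖ ^ 2 = 1 := by
      rw [norm_smul, mul_pow, hz, hsn]; norm_num
    exact (pow_eq_one_iff_of_nonneg (norm_nonneg _) two_ne_zero).mp h3
  have inn : ∀ z w : E, ‖z - o‖ ^ 2 = 1 / 2 → ‖w - o‖ ^ 2 = 1 / 2 →
      inner ℝ (Real.sqrt 2 • (z - o)) (Real.sqrt 2 • (w - o)) = 1 - ‖z - w‖ ^ 2 := by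
    intro z w hz hw
    have h3 := norm_sub_sq_real (z - o) (w - o)
    rw [sub_sub_sub_cancel_right, hz, hw] at h3
    rw [inner_smul_left, inner_smul_right, conj_trivial, ← mul_assoc, hs]
    linarith
  have sec := fun i => exists_second (unit (p i) (hpo i)) (unit (q i) (hqo i))
    (inn (p i) (q i) (hpo i) (hqo i)) (by linarith [t2 i]) (by linarith [t1 i])
  choose e2 b u2 i12 ab hqe a1 b1 he2 using sec
  -- orthogonality between different pairs
  have g1 : ∀ i j, i ≠ j → inner ℝ (Real.sqrt 2 • (p i - o)) (Real.sqrt 2 • (p j - o)) =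
      (0 : ℝ) := by
    intro i j hij
    rw [inn _ _ (hpo i) (hpo j), (h i j hij).1]; norm_num
  have g2 : ∀ i j, i ≠ j → inner ℝ (Real.sqrt 2 • (p i - o)) (Real.sqrt 2 • (q j - o)) =
      (0 : ℝ) := by
    intro i j hij
    rw [inn _ _ (hpo i) (hqo j), (h i j hij).2.1]; norm_num
  have g3 : ∀ i j, i ≠ j → inner ℝ (Real.sqrt 2 • (q i - o)) (Real.sqrt 2 • (q j - o)) =
      (0 : ℝ) := by
    intro i j hij
    rw [inn _ _ (hqo i) (hqo j), (h i j hij).2.2]; norm_num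
  have g2' : ∀ i j, i ≠ j → inner ℝ (Real.sqrt 2 • (q i - o)) (Real.sqrt 2 • (p j - o)) =
      (0 : ℝ) := by
    intro i j hij
    rw [real_inner_comm]; exact g2 j i hij.symm
  have unitp := fun i => unit (p i) (hpo i)
  obtain ⟨e1, he1⟩ : ∃ e1 : κ → E, ∀ i, e1 i = Real.sqrt 2 • (p i - o) := ⟨_, fun i => rfl⟩
  simp only [← he1] at unitp i12 hqe he2 g1 g2 g2'
  have lr : ∀ (a b c : E) (s t : ℝ), inner ℝ a b = (0 : ℝ) → inner ℝ a c = (0 : ℝ) →
      inner ℝ a (s • b + t • c) = (0 : ℝ) := by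
    intro a b c s t h3 h4
    rw [inner_add_right, inner_smul_right, inner_smul_right, h3, h4]; ring
  have ll : ∀ (a b c : E) (s t : ℝ), inner ℝ b a = (0 : ℝ) → inner ℝ c a = (0 : ℝ) →
      inner ℝ (s • b + t • c) a = (0 : ℝ) := by
    intro a b c s t h3 h4
    rw [inner_add_left, inner_smul_left, inner_smul_left, h3, h4]; simp
  have c12 : ∀ i j, i ≠ j → inner ℝ (e1 i) (e2 j) = (0 : ℝ) := by
    intro i j hij
    rw [he2 j]
    exact lr _ _ _ _ _ (g1 i j hij) (g2 i j hij)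
  have c21 : ∀ i j, i ≠ j → inner ℝ (e2 i) (e1 j) = (0 : ℝ) := by
    intro i j hij
    rw [real_inner_comm]; exact c12 j i hij.symm
  have c22 : ∀ i j, i ≠ j → inner ℝ (e2 i) (e2 j) = (0 : ℝ) := by
    intro i j hij
    rw [he2 j]
    refine lr _ _ _ _ _ (c21 i j hij) ?_
    rw [he2 i]
    exact ll _ _ _ _ _ (g2 i j hij) (g3 i j hij)
  have i21 : ∀ i, inner ℝ (e2 i) (e1 i) = (0 : ℝ) := by
    intro i; rw [real_inner_comm]; exact i12 i
  -- the orthonormal basis
  obtain ⟨m, hm⟩ : ∃ m, finrank ℝ E = 3 * (c + 3) + m := ⟨_, (Nat.add_sub_cancel' hE).symm⟩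
  let v : ((κ ⊕ Fin 2) × Fin 3) ⊕ Fin m → E := fun x =>
    match x with
    | Sum.inl (Sum.inl i, 0) => e1 i
    | Sum.inl (Sum.inl i, 1) => e2 i
    | _ => 0
  let s : Set (((κ ⊕ Fin 2) × Fin 3) ⊕ Fin m) :=
    {x | (∃ i : κ, x = Sum.inl (Sum.inl i, 0)) ∨ ∃ i : κ, x = Sum.inl (Sum.inl i, 1)}
  have hon : Orthonormal ℝ (s.domRestrict v) := by
    constructor
    · rintro ⟨x, ⟨i, rfl⟩ | ⟨i, rfl⟩⟩
      · exact unitp i
      · exact u2 i
    · rintro ⟨x, ⟨i, rfl⟩ | ⟨i, rfl⟩⟩ ⟨y, ⟨j, rfl⟩ | ⟨j, rfl⟩⟩ hxy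
      · have hij : i ≠ j := by rintro rfl; exact hxy rfl
        exact g1 i j hij
      · by_cases hij : i = j
        · subst hij; exact i12 i
        · exact c12 i j hij
      · by_cases hij : i = j
        · subst hij; exact i21 i
        · exact c21 i j hij
      · have hij : i ≠ j := by rintro rfl; exact hxy rfl
        exact c22 i j hij
  have hcard : finrank ℝ E = Fintype.card (((κ ⊕ Fin 2) × Fin 3) ⊕ Fin m) := by
    rw [Fintype.card_sum, Fintype.card_prod, Fintype.card_sum, hκ, Fintype.card_fin,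
      Fintype.card_fin, Fintype.card_fin, hm]
    ring
  obtain ⟨B, hB⟩ := hon.exists_orthonormalBasis_extension_of_card_eq hcard
  have B0 : ∀ i : κ, B (Sum.inl (Sum.inl i, 0)) = e1 i := fun i => hB _ (Or.inl ⟨i, rfl⟩)
  have B1 : ∀ i : κ, B (Sum.inl (Sum.inl i, 1)) = e2 i := fun i => hB _ (Or.inr ⟨i, rfl⟩)
  obtain ⟨x, hx, key⟩ := blocks (β := κ ⊕ Fin 2) (σ := Fin m) c
    (by rw [Fintype.card_sum, hκ, Fintype.card_fin])
    (by
      rw [Fintype.card_sum, hκ, Fintype.card_fin, Fintype.card_fin]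
      omega)
    (F := fun u => f (o + (Real.sqrt 2)⁻¹ • u))
    (by
      intro u w hu hw huw
      apply hf
      have e : o + (Real.sqrt 2)⁻¹ • u - (o + (Real.sqrt 2)⁻¹ • w) = (Real.sqrt 2)⁻¹ • (u - w) := by
        module
      have h3 : ‖(Real.sqrt 2)⁻¹ • (u - w)‖ ^ 2 = 1 := by
        rw [norm_smul, mul_pow, norm_sub_sq_real, huw, hu, hw, norm_inv, inv_pow, hsn]; norm_num
      rw [e]
      exact (pow_eq_one_iff_of_nonneg (norm_nonneg _) two_ne_zero).mp h3)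
    (fun x => B x) B.orthonormal (Finset.univ.map Function.Embedding.inl)
    (by rw [Finset.card_map, Finset.card_univ, hκ]; omega)
    (Sum.elim (fun i => 1 - ‖p i - q i‖ ^ 2) (fun _ => 0)) (Sum.elim b (fun _ => 0))
    (by
      intro x hx
      rw [Finset.mem_map] at hx
      obtain ⟨i, -, rfl⟩ := hx
      exact ab i)
  rw [Finset.mem_map] at hx
  obtain ⟨i, -, rfl⟩ := hx
  refine ⟨i, ?_⟩
  have back : ∀ z : E, o + (Real.sqrt 2)⁻¹ • (Real.sqrt 2 • (z - o)) = z := by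
    intro z
    rw [smul_smul, inv_mul_cancel₀ hs0, one_smul]; abel
  change ‖f (o + (Real.sqrt 2)⁻¹ • ((1 - ‖p i - q i‖ ^ 2) • B (Sum.inl (Sum.inl i, 0)) +
      b i • B (Sum.inl (Sum.inl i, 1)))) -
      f (o + (Real.sqrt 2)⁻¹ • B (Sum.inl (Sum.inl i, 0)))‖ ^ 2 = 1 - (1 - ‖p i - q i‖ ^ 2) ∨
    ‖f (o + (Real.sqrt 2)⁻¹ • ((1 - ‖p i - q i‖ ^ 2) • B (Sum.inl (Sum.inl i, 0)) +
      b i • B (Sum.inl (Sum.inl i, 1)))) -
      f (o + (Real.sqrt 2)⁻¹ • B (Sum.inl (Sum.inl i, 0)))‖ ^ 2 = 1 + (1 - ‖p i - q i‖ ^ 2) at key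
  rw [B0, B1, ← hqe i, he1, back, back] at key
  unfold Dich
  rw [norm_sub_rev (f (p i))]
  rcases key with h | h
  · left; rw [h]; ring
  · right; rw [h]; ring

end Pool.Agent.TH360.BqG
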